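import Pool.Agent.R336.TC.Dual

/-!
Step 7: the tensor product of an ideal with its canonical dual.
-/

set_option linter.unusedSectionVars false

namespace Pool.R336.TC

open Polynomial Submodule IsLocalRing
open scoped nonZeroDivisors TensorProduct

section Mu

variable {R : Type*} [CommRing R] [IsLocalRing R]

theorem mu_congr {X Y : Type*} [AddCommGroup X] [Module R X] [AddCommGroup Y] [Module R Y]
    (e : X ≃ₗ[R] Y) : mu R X = mu R Y :=
  LinearEquiv.finrank_eq (LinearEquiv.baseChange R (ResidueField R) X Y e)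

theorem mu_tensor (X Y : Type*) [AddCommGroup X] [Module R X] [AddCommGroup Y] [Module R Y] :
    mu R (X ⊗[R] Y) = mu R X * mu R Y := by
  unfold mu
  rw [← Module.finrank_tensorProduct (R := ResidueField R) (S := ResidueField R)]
  exact LinearEquiv.finrank_eq
    (TensorProduct.AlgebraTensorModule.distribBaseChange R (ResidueField R) X Y)

end Mu

variable {R : Type*} [CommRing R] [IsDomain R] [IsLocalRing R] [IsNoetherianRing R]
  {F : Type*} [Field F] [Algebra R F] [IsFractionRing R F]

theorem mu_ne_zero {N : Submodule R F} (hN : Lat N) : mu R N ≠ 0 := by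
  intro h
  have h1 := len_mF N hN.fg
  rw [h, Nat.cast_zero, len_eq_zero_iff] at h1
  have h2 : N ≤ ⊥ := by
    refine Submodule.le_of_le_smul_of_le_jacobson_bot (I := maximalIdeal R) hN.fg
      (IsLocalRing.maximalIdeal_le_jacobson _) ?_
    rw [smul_eq_coe_mul]
    exact h1.trans le_sup_right
  exact hN.ne (le_bot_iff.mp h2)

theorem principal_of_mu_one {N : Submodule R F} (hN : Lat N) (h : mu R N = 1) :
    ∃ x : F, x ≠ 0 ∧ N = Submodule.span R {x} := by
  have h1 := len_mF N hN.fg
  rw [h] at h1
  have hne : ¬ N ≤ mF R F * N := by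
    intro h'
    rw [len_eq_zero_iff.mpr h'] at h1
    norm_num at h1
  obtain ⟨x, hx, hx'⟩ := Set.not_subset.mp hne
  have hxN : Submodule.span R {x} ≤ N := by
    rw [Submodule.span_singleton_le_iff_mem]
    exact hx
  have h2 : mF R F * N ≤ Submodule.span R {x} ⊔ mF R F * N := le_sup_right
  have h3 : Submodule.span R {x} ⊔ mF R F * N ≤ N := sup_le hxN (mF_mul_le N)
  have h4 := len_add h2 h3
  rw [h1] at h4
  have h5 : len (mF R F * N) (Submodule.span R {x} ⊔ mF R F * N) ≠ 0 := by
    rw [Ne, len_eq_zero_iff]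
    intro h'
    exact hx' (h' ((le_sup_left : Submodule.span R {x} ≤ _) (Submodule.mem_span_singleton_self x)))
  have h6 : len (Submodule.span R {x} ⊔ mF R F * N) N = 0 := by
    by_contra h7
    have h8 := Order.one_le_iff_pos.mpr (pos_iff_ne_zero.mpr h5)
    have h9 := Order.one_le_iff_pos.mpr (pos_iff_ne_zero.mpr h7)
    have h10 : (1 : ℕ∞) + 1 ≤ ((1 : ℕ) : ℕ∞) := by
      rw [h4]
      exact add_le_add h8 h9
    norm_num at h10
  rw [len_eq_zero_iff] at h6
  have h7 : N ≤ Submodule.span R {x} := by
    refine Submodule.le_of_le_smul_of_le_jacobson_bot (I := maximalIdeal R) hN.fg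
      (IsLocalRing.maximalIdeal_le_jacobson _) ?_
    rw [smul_eq_coe_mul]
    exact h6
  refine ⟨x, ?_, le_antisymm h7 hxN⟩
  rintro rfl
  rw [Submodule.span_zero_singleton, le_bot_iff] at h7
  exact hN.ne h7

/-- An ideal and its image in the fraction field are isomorphic. -/
noncomputable def idealEquiv (I : Ideal R) :
    I ≃ₗ[R] (IsLocalization.coeSubmodule F I) :=
  Submodule.equivMapOfInjective (Algebra.linearMap R F) (IsFractionRing.injective R F) I

theorem idealEquiv_apply (I : Ideal R) (x : I) :
    ((idealEquiv (F := F) I x : IsLocalization.coeSubmodule F I) : F) = algebraMap R F x := rfl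

/-- `K : I → Hom(I, K)`. -/
def homOf (K : Submodule R F) (I : Ideal R) :
    (K / IsLocalization.coeSubmodule F I : Submodule R F) →ₗ[R] (I →ₗ[R] K) where
  toFun x :=
    { toFun := fun i => ⟨(x : F) * algebraMap R F i,
        (Submodule.mem_div_iff_forall_mul_mem.mp x.2) _
          ((IsLocalization.mem_coeSubmodule F I).mpr ⟨i, i.2, rfl⟩)⟩
      map_add' := fun i j => by
        apply Subtype.ext
        show (x : F) * algebraMap R F ((i + j : I) : R) = _
        rw [Submodule.coe_add, map_add, mul_add]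
        rfl
      map_smul' := fun r i => by
        apply Subtype.ext
        show (x : F) * algebraMap R F ((r • i : I) : R) = r • ((x : F) * algebraMap R F i)
        rw [Submodule.coe_smul, smul_eq_mul, map_mul, Algebra.smul_def]
        ring }
  map_add' x y := by
    apply LinearMap.ext
    intro i
    apply Subtype.ext
    show ((x + y : (K / IsLocalization.coeSubmodule F I : Submodule R F)) : F) *
      algebraMap R F i = (x : F) * algebraMap R F i + (y : F) * algebraMap R F i
    rw [Submodule.coe_add, add_mul]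
  map_smul' r x := by
    apply LinearMap.ext
    intro i
    apply Subtype.ext
    show ((r • x : (K / IsLocalization.coeSubmodule F I : Submodule R F)) : F) *
      algebraMap R F i = r • ((x : F) * algebraMap R F i)
    rw [Submodule.coe_smul, smul_mul_assoc]

theorem homOf_bijective (K : Submodule R F) {I : Ideal R} (hI : I ≠ ⊥) :
    Function.Bijective (homOf K I) := by
  obtain ⟨a, ha, ha0⟩ := Submodule.exists_mem_ne_zero_of_ne_bot hI
  have ha0' : algebraMap R F a ≠ 0 := by
    intro h
    rw [map_eq_zero_iff _ (IsFractionRing.injective R F)] at h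
    exact ha0 h
  constructor
  · rw [injective_iff_map_eq_zero]
    intro x hx
    have h1 := congrArg Subtype.val (LinearMap.congr_fun hx ⟨a, ha⟩)
    have h2 : (x : F) * algebraMap R F a = 0 := h1
    apply Subtype.ext
    exact (mul_eq_zero.mp h2).resolve_right ha0'
  · intro ψ
    have key : ∀ i : I, (ψ i : F) = ((ψ ⟨a, ha⟩ : K) : F) / algebraMap R F a * algebraMap R F i := by
      intro i
      have h1 : a • i = (i : R) • (⟨a, ha⟩ : I) := by
        apply Subtype.ext
        show a * (i : R) = (i : R) * a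
        ring
      have h2 := congrArg ψ h1
      rw [map_smul, map_smul] at h2
      have h3 := congrArg Subtype.val h2
      rw [Submodule.coe_smul, Submodule.coe_smul, Algebra.smul_def, Algebra.smul_def] at h3
      field_simp
      rw [mul_comm, h3, mul_comm]
    refine ⟨⟨((ψ ⟨a, ha⟩ : K) : F) / algebraMap R F a, ?_⟩, ?_⟩
    · rw [Submodule.mem_div_iff_forall_mul_mem]
      intro y hy
      obtain ⟨i, hi, rfl⟩ := (IsLocalization.mem_coeSubmodule F I).mp hy
      have := key ⟨i, hi⟩
      rw [← this]
      exact (ψ ⟨i, hi⟩).2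
    · apply LinearMap.ext
      intro i
      apply Subtype.ext
      exact (key i).symm

/-- If `I ⊗ J` is torsion-free for lattices with `I` integral, then `I ⊗ J ≅ I J`. -/
theorem tensor_equiv {I : Ideal R} (hI : I ≠ ⊥) (J : Submodule R F)
    (htf : ∀ r : R, r ≠ 0 → ∀ z : (IsLocalization.coeSubmodule F I) ⊗[R] J, r • z = 0 → z = 0) :
    Nonempty (((IsLocalization.coeSubmodule F I) ⊗[R] J) ≃ₗ[R]
      (IsLocalization.coeSubmodule F I * J : Submodule R F)) := by
  classical
  set I' := IsLocalization.coeSubmodule F I with hI'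
  obtain ⟨a, ha, ha0⟩ := Submodule.exists_mem_ne_zero_of_ne_bot hI
  have hz : ∀ z : I' ⊗[R] J, ∃ y : J,
      a • z = (⟨algebraMap R F a, (IsLocalization.mem_coeSubmodule F I).mpr ⟨a, ha, rfl⟩⟩ : I') ⊗ₜ[R] y
        ∧ (y : F) = Submodule.mulMap I' J z := by
    intro z
    induction z using TensorProduct.induction_on with
    | zero => exact ⟨0, by simp, by simp⟩
    | tmul i j =>
      obtain ⟨b, hb, hbi⟩ := (IsLocalization.mem_coeSubmodule F I).mp i.2
      refine ⟨b • j, ?_, ?_⟩
      · rw [TensorProduct.tmul_smul, TensorProduct.smul_tmul', TensorProduct.smul_tmul']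
        congr 1
        apply Subtype.ext
        rw [Submodule.coe_smul, Submodule.coe_smul, ← hbi, Algebra.smul_def, Algebra.smul_def,
          mul_comm]
      · rw [Submodule.mulMap_tmul, ← hbi, Submodule.coe_smul, Algebra.smul_def]
    | add z₁ z₂ h₁ h₂ =>
      obtain ⟨y₁, hy₁, hy₁'⟩ := h₁
      obtain ⟨y₂, hy₂, hy₂'⟩ := h₂
      refine ⟨y₁ + y₂, ?_, ?_⟩
      · rw [smul_add, hy₁, hy₂, TensorProduct.tmul_add]
      · rw [map_add, ← hy₁', ← hy₂', Submodule.coe_add]
  have hinj : Function.Injective (Submodule.mulMap' I' J) := by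
    rw [injective_iff_map_eq_zero]
    intro z hz0
    have h1 : Submodule.mulMap I' J z = 0 := congrArg Subtype.val hz0
    obtain ⟨y, hy, hy'⟩ := hz z
    rw [h1] at hy'
    have h2 : y = 0 := Subtype.ext hy'
    rw [h2, TensorProduct.tmul_zero] at hy
    exact htf a ha0 z hy
  exact ⟨LinearEquiv.ofBijective (Submodule.mulMap' I' J) ⟨hinj, Submodule.mulMap'_surjective I' J⟩⟩

variable [Ring.KrullDimLE 1 R]

theorem main_aux (hm : maximalIdeal R ≠ ⊥) (he : MultNum R F (mu R (mF R F)))
    {K : Submodule R F} (hK : IsCanon K) {ω : Type*} [AddCommGroup ω] [Module R ω]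
    (eω : ω ≃ₗ[R] K) {I : Ideal R} (hI : I ≠ ⊥)
    (htf : ∀ r : R, r ≠ 0 → ∀ z : I ⊗[R] (I →ₗ[R] ω), r • z = 0 → z = 0) :
    Nonempty (I ≃ₗ[R] R) ∨ Nonempty (I ≃ₗ[R] ω) := by
  set I' := IsLocalization.coeSubmodule F I with hI'
  have hIl : Lat I' := Lat.coe hI
  set J := K / I' with hJ
  have hJl : Lat J := hK.lat.div hIl
  have eJ : J ≃ₗ[R] (I →ₗ[R] ω) :=
    (LinearEquiv.ofBijective (homOf K I) (homOf_bijective K hI)).trans
      (LinearEquiv.congrRight (M := I) eω.symm)
  have eT : (I' ⊗[R] J) ≃ₗ[R] (I ⊗[R] (I →ₗ[R] ω)) :=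
    TensorProduct.congr (idealEquiv (F := F) I).symm eJ
  obtain ⟨eIJ⟩ := tensor_equiv (F := F) hI J (by
    intro r hr z hz
    have h1 : r • eT z = 0 := by rw [← map_smul, hz, map_zero]
    have h2 := htf r hr _ h1
    exact (map_eq_zero_iff eT eT.injective).mp h2)
  have hprod : mu R I' * mu R J = mu R (I' * J : Submodule R F) := by
    rw [← mu_tensor, mu_congr eIJ]
  rcases core7 hm he rfl hK hIl hprod (mu_ne_zero hIl) (mu_ne_zero hJl) with h | h
  · left
    obtain ⟨x, hx0, hx⟩ := principal_of_mu_one hIl h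
    have e4 : (Submodule.span R {x} : Submodule R F) ≃ₗ[R] R :=
      (LinearEquiv.toSpanNonzeroSingleton R F x hx0).symm
    have e5 : I' ≃ₗ[R] (Submodule.span R {x} : Submodule R F) := LinearEquiv.ofEq _ _ hx
    exact ⟨(idealEquiv (F := F) I).trans (e5.trans e4)⟩
  · right
    obtain ⟨j, hj0, hj⟩ := principal_of_mu_one hJl h
    have h1 : I' = K / J := (hK.bidual I' hIl).symm
    have h2 : K / J = Submodule.span R {j⁻¹} * K := by
      rw [hj]
      ext x
      rw [Submodule.mem_span_singleton_mul, Submodule.mem_div_iff_forall_mul_mem]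
      constructor
      · intro hx
        exact ⟨x * j, hx j (Submodule.mem_span_singleton_self j), by field_simp⟩
      · rintro ⟨z, hz, rfl⟩ y hy
        obtain ⟨r, rfl⟩ := Submodule.mem_span_singleton.mp hy
        have : j⁻¹ * z * r • j = r • z := by
          rw [mul_smul_comm]
          congr 1
          field_simp
        rw [this]
        exact K.smul_mem r hz
    have e3 : K ≃ₗ[R] (Submodule.span R {j⁻¹} * K : Submodule R F) := by
      refine LinearEquiv.ofBijective
        (((LinearMap.mulLeft R j⁻¹).comp K.subtype).codRestrict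
          (Submodule.span R {j⁻¹} * K) ?_) ⟨?_, ?_⟩
      · intro c
        rw [Submodule.mem_span_singleton_mul]
        exact ⟨c, c.2, rfl⟩
      · intro c d hcd
        have h4 : j⁻¹ * (c : F) = j⁻¹ * (d : F) := congrArg Subtype.val hcd
        exact Subtype.ext (mul_left_cancel₀ (inv_ne_zero hj0) h4)
      · rintro ⟨y, hy⟩
        obtain ⟨z, hz, hzy⟩ := Submodule.mem_span_singleton_mul.mp hy
        exact ⟨⟨z, hz⟩, Subtype.ext hzy⟩
    have e5 : I' ≃ₗ[R] (Submodule.span R {j⁻¹} * K : Submodule R F) :=
      LinearEquiv.ofEq _ _ (h1.trans h2)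
    exact ⟨(idealEquiv (F := F) I).trans (e5.trans (e3.symm.trans eω.symm))⟩

/-! ### Translation of the hypotheses -/

omit [Ring.KrullDimLE 1 R] in
theorem finrank_cotangent :
    Module.finrank (ResidueField R) (CotangentSpace R) = mu R (mF R F) := by
  have h1 : Module.length R (CotangentSpace R) = (mu R (maximalIdeal R) : ℕ∞) :=
    length_quot_eq_mu (maximalIdeal R)
  rw [Module.length_eq_of_surjective (R := ResidueField R)
    (by exact IsLocalRing.residue_surjective), Module.length_eq_finrank] at h1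
  have h2 : mu R (mF R F) = mu R (maximalIdeal R) :=
    (mu_congr (idealEquiv (F := F) (maximalIdeal R))).symm
  rw [h2]
  exact_mod_cast h1

omit [Ring.KrullDimLE 1 R] in
theorem length_quot_pow (n : ℕ) :
    (Module.length R (R ⧸ maximalIdeal R ^ n)).toNat = lenN (mF R F ^ n) (1 : Submodule R F) := by
  unfold lenN
  congr 1
  unfold mF
  rw [← coe_pow]
  set D := maximalIdeal R ^ n with hD
  have h1 : Module.length R (R ⧸ D) = len D (⊤ : Submodule R R) := by
    unfold len
    refine LinearEquiv.length_eq (Submodule.Quotient.equiv _ _ (Submodule.topEquiv).symm ?_)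
    ext x
    constructor
    · rintro ⟨y, hy, rfl⟩
      exact hy
    · intro hx
      exact ⟨x, hx, rfl⟩
  rw [h1]
  apply le_antisymm
  · refine len_le_of_inj (Algebra.linearMap R F) ?_ ?_
    · intro b _
      exact Submodule.mem_one.mpr ⟨b, rfl⟩
    · intro b _ hb
      obtain ⟨c, hc, hcb⟩ := (IsLocalization.mem_coeSubmodule F D).mp hb
      have : c = b := IsFractionRing.injective R F hcb
      rwa [← this]
  · refine len_le_of_surj (Algebra.linearMap R F) ?_ ?_ ?_
    · intro a ha
      exact (IsLocalization.mem_coeSubmodule F D).mpr ⟨a, ha, rfl⟩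
    · intro b _
      exact Submodule.mem_one.mpr ⟨b, rfl⟩
    · intro y hy
      obtain ⟨b, rfl⟩ := Submodule.mem_one.mp hy
      refine ⟨b, Submodule.mem_top, ?_⟩
      rw [Algebra.linearMap_apply, sub_self]
      exact Submodule.zero_mem _

open Filter Topology in
omit [Ring.KrullDimLE 1 R] in
theorem multNum_of_tendsto {e : ℕ}
    (h : Tendsto (fun n : ℕ => ((Module.length R (R ⧸ maximalIdeal R ^ n)).toNat : ℝ) / n)
      atTop (𝓝 (e : ℝ))) : MultNum R F e := by
  have h1 := (Metric.tendsto_atTop.mp h) (1 / 2) (by norm_num)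
  obtain ⟨N, hN⟩ := h1
  refine ⟨N + 1, ?_⟩
  intro n hn
  have h2 := hN n (by omega)
  rw [length_quot_pow (F := F), Real.dist_eq, abs_lt] at h2
  have hn0 : (0 : ℝ) < n := by
    have : 0 < n := by omega
    exact_mod_cast this
  obtain ⟨h3, h4⟩ := h2
  have h5 : (lenN (mF R F ^ n) (1 : Submodule R F) : ℝ) / n * n =
      lenN (mF R F ^ n) (1 : Submodule R F) := div_mul_cancel₀ _ hn0.ne'
  constructor
  · have : (2 * lenN (mF R F ^ n) (1 : Submodule R F) : ℝ) ≤ (2 * e + 1) * n := by
      nlinarith
    exact_mod_cast this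
  · have : (2 * e * n : ℝ) ≤ 2 * lenN (mF R F ^ n) (1 : Submodule R F) + n := by
      nlinarith
    exact_mod_cast this

end Pool.R336.TC
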