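import Pool.Agent.R336.TC.ExtPart
import Pool.Agent.R336.TC.Main

/-!
A canonical module in the homological sense is a canonical fractional ideal in the sense of
Herzog and Kunz.
-/

set_option linter.unusedSectionVars false

universe u

namespace Pool.R336.TC

open Submodule IsLocalRing CategoryTheory Abelian Limits
open scoped nonZeroDivisors Pointwise

variable {R : Type u} [CommRing R] [IsDomain R] [IsLocalRing R] [IsNoetherianRing R]

section

variable {F : Type u} [Field F] [Algebra R F] [IsFractionRing R F]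

theorem injective_fraction : Module.Injective R F := by
  apply Module.Baer.injective
  intro J g
  by_cases hJ : J = ⊥
  · subst hJ
    refine ⟨0, ?_⟩
    intro x hx
    have h1 : (⟨x, hx⟩ : (⊥ : Ideal R)) = 0 := Subtype.ext ((Submodule.mem_bot R).mp hx)
    rw [h1, map_zero, LinearMap.zero_apply]
  · obtain ⟨a, ha, ha0⟩ := Submodule.exists_mem_ne_zero_of_ne_bot hJ
    have ha0' : algebraMap R F a ≠ 0 := by
      intro h
      rw [map_eq_zero_iff _ (IsFractionRing.injective R F)] at h
      exact ha0 h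
    refine ⟨LinearMap.toSpanSingleton R F (g ⟨a, ha⟩ / algebraMap R F a), ?_⟩
    intro x hx
    have h1 : a • (⟨x, hx⟩ : J) = x • (⟨a, ha⟩ : J) := Subtype.ext (by
      show a * x = x * a
      ring)
    have h2 := congrArg g h1
    rw [map_smul, map_smul, Algebra.smul_def, Algebra.smul_def] at h2
    rw [LinearMap.toSpanSingleton_apply, Algebra.smul_def, ← mul_div_assoc, ← h2,
      mul_div_cancel_left₀ _ ha0']

theorem divis_quot (K : Submodule R F) : Divis R (F ⧸ K) := by
  intro x hx q
  obtain ⟨y, rfl⟩ := Submodule.Quotient.mk_surjective _ q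
  have hx' : algebraMap R F x ≠ 0 := by
    intro h
    rw [map_eq_zero_iff _ (IsFractionRing.injective R F)] at h
    exact hx h
  refine ⟨Submodule.Quotient.mk (y / algebraMap R F x), ?_⟩
  rw [← Submodule.Quotient.mk_smul, Algebra.smul_def, mul_div_cancel₀ _ hx']

variable [Ring.KrullDimLE 1 R]

theorem injective_quot (hm : maximalIdeal R ≠ ⊥) (K : Submodule R F) {n : ℕ}
    (h : HasInjectiveDimensionLE (ModuleCat.of R K) n) : Module.Injective R (F ⧸ K) := by
  let S : ShortComplex (ModuleCat.{u} R) :=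
    ModuleCat.shortComplexOfCompEqZero K.subtype K.mkQ (by
      apply LinearMap.ext
      intro x
      rw [LinearMap.comp_apply, Submodule.mkQ_apply, LinearMap.zero_apply,
        Submodule.Quotient.mk_eq_zero]
      exact x.2)
  have hS : S.ShortExact := by
    refine ModuleCat.shortComplex_shortExact S ?_ K.injective_subtype (Submodule.mkQ_surjective _)
    exact LinearMap.exact_subtype_mkQ K
  have hF : Injective S.X₂ :=
    (Module.injective_iff_injective_object R F).mp injective_fraction
  have h1 : HasInjectiveDimensionLT S.X₁ (n + 2) := by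
    have h2 : HasInjectiveDimensionLT S.X₁ (n + 1) := h
    exact hasInjectiveDimensionLT_of_ge _ (n + 1) (n + 2) (by omega)
  have h3 : HasInjectiveDimensionLT S.X₃ (n + 1) := (hS.hasInjectiveDimensionLT_X₃_iff n hF).mpr h1
  have h4 : Injective S.X₃ := injective_of_finite_injdim hm n S.X₃ (divis_quot K) h3
  exact (Module.injective_iff_injective_object R (F ⧸ K)).mpr h4

/-- A socle element of `F / K`. -/
theorem exists_socle (hm : maximalIdeal R ≠ ⊥) {K : Submodule R F} (hK : Lat K) :
    ∃ q : F, q ∉ K ∧ ∀ a ∈ maximalIdeal R, a • q ∈ K := by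
  classical
  have hne : ∃ q₀ : F, q₀ ∉ K := by
    by_contra hcon
    push Not at hcon
    apply mu_ne_zero hK
    have h1 : K ≤ mF R F * K := by
      intro y _
      obtain ⟨w, hw, hw0⟩ := Submodule.exists_mem_ne_zero_of_ne_bot hm
      have hv0 : algebraMap R F w ≠ 0 := by
        intro h
        rw [map_eq_zero_iff _ (IsFractionRing.injective R F)] at h
        exact hw0 h
      have h2 : algebraMap R F w * ((algebraMap R F w)⁻¹ * y) ∈ mF R F * K :=
        Submodule.mul_mem_mul ((IsLocalization.mem_coeSubmodule F _).mpr ⟨w, hw, rfl⟩) (hcon _)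
      rwa [mul_inv_cancel_left₀ hv0] at h2
    have h2 := len_mF K hK.fg
    rw [len_eq_zero_iff.mpr h1] at h2
    exact_mod_cast h2.symm
  obtain ⟨q₀, hq₀⟩ := hne
  have hq0 : q₀ ≠ 0 := by
    rintro rfl
    exact hq₀ K.zero_mem
  have hN := exists_pow_mul_le hK (Lat.span (R := R) hq0)
  have hN0 := Nat.find_spec hN
  have hNm := fun {k} => Nat.find_min (m := k) hN
  set N := Nat.find hN with hNdef
  have hNpos : N ≠ 0 := by
    intro h0
    rw [h0, pow_zero, one_mul, Submodule.span_singleton_le_iff_mem] at hN0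
    exact hq₀ hN0
  have h1 : ¬ mF R F ^ (N - 1) * Submodule.span R {q₀} ≤ K := hNm (by omega)
  obtain ⟨q, hq, hqK⟩ := Set.not_subset.mp h1
  refine ⟨q, hqK, ?_⟩
  intro a ha
  apply hN0
  have h2 : mF R F ^ N * Submodule.span R {q₀} =
      mF R F * (mF R F ^ (N - 1) * Submodule.span R {q₀}) := by
    rw [← mul_assoc, ← pow_succ']
    congr 2
    omega
  rw [h2, Algebra.smul_def]
  exact Submodule.mul_mem_mul ((IsLocalization.mem_coeSubmodule F _).mpr ⟨a, ha, rfl⟩) hq

theorem bidual_of_injective (hm : maximalIdeal R ≠ ⊥) {K : Submodule R F} (hK : Lat K)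
    (hinj : Module.Injective R (F ⧸ K)) {N : Submodule R F} (hN : Lat N) :
    K / (K / N) = N := by
  classical
  apply le_antisymm ?_ (le_div_div K N)
  intro z hz
  by_contra hzN
  obtain ⟨q, hqK, hq⟩ := exists_socle hm hK
  set N' : Submodule R F := N ⊔ Submodule.span R {z} with hN'
  have hzN' : z ∈ N' := (le_sup_right : Submodule.span R {z} ≤ N')
    (Submodule.mem_span_singleton_self z)
  have hNN' : N ≤ N' := le_sup_left
  have hN'fg : N'.FG := hN.fg.sup (Submodule.fg_span_singleton z)
  have hJ : ∀ r : R, r • z ∈ N → r ∈ maximalIdeal R := by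
    intro r hr
    rw [IsLocalRing.mem_maximalIdeal]
    intro hu
    obtain ⟨s, hs⟩ := hu.exists_left_inv
    have := N.smul_mem s hr
    rw [smul_smul, hs, one_smul] at this
    exact hzN this
  let π : R →ₗ[R] (N' ⧸ N.submoduleOf N') :=
    (N.submoduleOf N').mkQ.comp (LinearMap.toSpanSingleton R N' ⟨z, hzN'⟩)
  have hπ : ∀ r, π r = Submodule.Quotient.mk (r • (⟨z, hzN'⟩ : N')) := fun r => rfl
  have hπs : Function.Surjective π := by
    intro y
    obtain ⟨y, rfl⟩ := Submodule.Quotient.mk_surjective _ y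
    obtain ⟨n, hn, w, hw, hnw⟩ := Submodule.mem_sup.mp y.2
    obtain ⟨r, rfl⟩ := Submodule.mem_span_singleton.mp hw
    refine ⟨r, ?_⟩
    rw [hπ, Submodule.Quotient.eq]
    show r • z - (y : F) ∈ N
    rw [← hnw, sub_add_cancel_right]
    exact N.neg_mem hn
  let e := π.quotKerEquivOfSurjective hπs
  let χ : (R ⧸ LinearMap.ker π) →ₗ[R] (F ⧸ K) := (LinearMap.ker π).liftQ
    (LinearMap.toSpanSingleton R (F ⧸ K) (Submodule.Quotient.mk q)) (by
      intro r hr
      rw [LinearMap.mem_ker, hπ, Submodule.Quotient.mk_eq_zero] at hr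
      rw [LinearMap.mem_ker, LinearMap.toSpanSingleton_apply, ← Submodule.Quotient.mk_smul,
        Submodule.Quotient.mk_eq_zero]
      exact hq r (hJ r hr))
  let ψ : N' →ₗ[R] (F ⧸ K) := χ.comp (e.symm.toLinearMap.comp (N.submoduleOf N').mkQ)
  have hψz : ψ ⟨z, hzN'⟩ = Submodule.Quotient.mk q := by
    have h1 : e.symm ((N.submoduleOf N').mkQ ⟨z, hzN'⟩) = Submodule.Quotient.mk 1 := by
      rw [LinearEquiv.symm_apply_eq]
      show _ = π 1
      rw [hπ, one_smul]
      rfl
    show χ (e.symm ((N.submoduleOf N').mkQ ⟨z, hzN'⟩)) = _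
    rw [h1]
    show LinearMap.toSpanSingleton R (F ⧸ K) (Submodule.Quotient.mk q) 1 = _
    rw [LinearMap.toSpanSingleton_apply, one_smul]
  have hψN : ∀ n (hn : n ∈ N), ψ ⟨n, hNN' hn⟩ = 0 := by
    intro n hn
    show χ (e.symm ((N.submoduleOf N').mkQ ⟨n, hNN' hn⟩)) = 0
    have h1 : (N.submoduleOf N').mkQ ⟨n, hNN' hn⟩ = 0 := by
      rw [Submodule.mkQ_apply, Submodule.Quotient.mk_eq_zero]
      exact hn
    rw [h1, map_zero, map_zero]
  obtain ⟨h, hh⟩ := hinj.out N'.subtype N'.injective_subtype ψ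
  obtain ⟨d, hd, hdN⟩ := FractionalIdeal.isFractional_of_fg (S := R⁰) (P := F) hN'fg
  have hd0 : algebraMap R F d ≠ 0 := by
    intro h'
    rw [map_eq_zero_iff _ (IsFractionRing.injective R F)] at h'
    exact (nonZeroDivisors.ne_zero hd) h'
  obtain ⟨w, hw⟩ := Submodule.Quotient.mk_surjective _ (h (algebraMap R F d)⁻¹)
  have hmul : ∀ y (hy : y ∈ N'), ψ ⟨y, hy⟩ =
      Submodule.Quotient.mk (algebraMap R F d * w * y) := by
    intro y hy
    obtain ⟨r, hr⟩ := hdN y hy
    rw [Algebra.smul_def] at hr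
    have h1 : y = r • (algebraMap R F d)⁻¹ := by
      rw [Algebra.smul_def, hr]
      field_simp
    rw [← hh]
    show h y = _
    have h2 : h y = r • h (algebraMap R F d)⁻¹ := by
      rw [← map_smul, ← h1]
    rw [h2, ← hw, ← Submodule.Quotient.mk_smul, Algebra.smul_def, hr]
    congr 1
    ring
  have h1 : algebraMap R F d * w ∈ K / N := by
    rw [Submodule.mem_div_iff_forall_mul_mem]
    intro y hy
    have h2 := hψN y hy
    rw [hmul, Submodule.Quotient.mk_eq_zero] at h2
    exact h2
  have h2 := (Submodule.mem_div_iff_forall_mul_mem.mp hz) _ h1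
  have h3 := hmul z hzN'
  rw [hψz] at h3
  have h4 : (Submodule.Quotient.mk q : F ⧸ K) = 0 := by
    rw [h3, Submodule.Quotient.mk_eq_zero, mul_comm]
    exact h2
  exact hqK ((Submodule.Quotient.mk_eq_zero _).mp h4)

end

/-- `ω` is a canonical module of the one-dimensional local domain `R` (Bruns and Herzog,
Definition 3.3.1): a finitely generated module which is maximal Cohen-Macaulay (the maximal ideal
contains an `ω`-regular element), has finite injective dimension, and has type one,
`Ext¹(k, ω) ≅ k`. -/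
structure IsCanonicalModule (R : Type u) [CommRing R] [IsLocalRing R]
    (ω : Type u) [AddCommGroup ω] [Module R ω] : Prop where
  finite : Module.Finite R ω
  cohenMacaulay : ∃ x ∈ maximalIdeal R, IsSMulRegular ω x
  injdim : ∃ n : ℕ, HasInjectiveDimensionLE (ModuleCat.of R ω) n
  type_one : Nonempty (Ext (ModuleCat.of R (R ⧸ maximalIdeal R)) (ModuleCat.of R ω) 1 ≃ₗ[R]
    (R ⧸ maximalIdeal R))

variable [Ring.KrullDimLE 1 R]

theorem IsCanonicalModule.torsionFree {ω : Type u} [AddCommGroup ω] [Module R ω]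
    (h : IsCanonicalModule R ω) : ∀ r : R, r ≠ 0 → ∀ v : ω, r • v = 0 → v = 0 := by
  intro r hr v hv
  obtain ⟨x, hx, hreg⟩ := h.cohenMacaulay
  have hne : Ideal.span {r} ≠ ⊥ := by
    rwa [Ne, Ideal.span_singleton_eq_bot]
  obtain ⟨n, hn⟩ := exists_pow_le hne
  obtain ⟨c, hc⟩ := Ideal.mem_span_singleton'.mp (hn (Ideal.pow_mem_pow hx n))
  have h1 : (x ^ n) • v = 0 := by
    rw [← hc, mul_smul, hv, smul_zero]
  apply hreg.pow n
  show x ^ n • v = x ^ n • (0 : ω)
  rw [h1, smul_zero]

theorem IsCanonicalModule.nontrivial {ω : Type u} [AddCommGroup ω] [Module R ω]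
    (h : IsCanonicalModule R ω) : Nontrivial ω := by
  by_contra hn
  rw [not_nontrivial_iff_subsingleton] at hn
  obtain ⟨θ⟩ := h.type_one
  have h1 : θ.symm (Ideal.Quotient.mk _ 1) = 0 :=
    ext_eq_zero_of_isZero_right (ModuleCat.isZero_of_subsingleton _) _
  have h2 : (Ideal.Quotient.mk (maximalIdeal R)) 1 = 0 :=
    (map_eq_zero_iff θ.symm θ.symm.injective).mp h1
  rw [Ideal.Quotient.eq_zero_iff_mem] at h2
  exact (IsLocalRing.maximalIdeal.isMaximal R).ne_top ((Ideal.eq_top_iff_one _).mpr h2)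

/-- A canonical module is isomorphic to a canonical fractional ideal. -/
theorem IsCanonicalModule.exists_canon (hm : maximalIdeal R ≠ ⊥)
    {F : Type u} [Field F] [Algebra R F] [IsFractionRing R F]
    {ω : Type u} [AddCommGroup ω] [Module R ω]
    (h : IsCanonicalModule R ω) : ∃ K : Submodule R F, IsCanon K ∧ Nonempty (ω ≃ₗ[R] K) := by
  have := h.finite
  have := h.nontrivial
  have hT := typeOne_of_ext h.torsionFree h.type_one
  obtain ⟨K, hK, ⟨e⟩⟩ := exists_embedding (F := F) hm hT h.torsionFree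
  obtain ⟨n, hn⟩ := h.injdim
  have hn' : HasInjectiveDimensionLE (ModuleCat.of R K) n :=
    (ModuleCat.hasInjectiveDimensionLE_iff_of_linearEquiv e n).mp hn
  have hinj := injective_quot hm K hn'
  exact ⟨K, ⟨hK, fun N hN => bidual_of_injective hm hK hinj hN⟩, ⟨e⟩⟩

end Pool.R336.TC
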