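import Mathlib

/-!
The Dedekind-Mertens lemma for polynomials over an algebra, contents being submodules.
-/

namespace Pool.R336.TC

open Polynomial Submodule

variable {R : Type*} [CommRing R] {F : Type*} [CommRing F] [Algebra R F]

theorem mulR {A B : Submodule R F} (C : Submodule R F) (h : A ≤ B) : C * A ≤ C * B :=
  mul_le_mul_right h C

theorem mulL {A B : Submodule R F} (C : Submodule R F) (h : A ≤ B) : A * C ≤ B * C :=
  mul_le_mul_left h C

/-- The content of a polynomial: the `R`-span of its coefficients. -/
def cont (R : Type*) [CommRing R] {F : Type*} [CommRing F] [Algebra R F] (g : F[X]) :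
    Submodule R F := Submodule.span R (Set.range g.coeff)

theorem coeff_mem_cont (g : F[X]) (i : ℕ) : g.coeff i ∈ cont R g :=
  Submodule.subset_span ⟨i, rfl⟩

theorem cont_le {g : F[X]} {N : Submodule R F} : cont R g ≤ N ↔ ∀ i, g.coeff i ∈ N := by
  unfold cont
  rw [Submodule.span_le]
  constructor
  · intro h i
    exact h ⟨i, rfl⟩
  · rintro h _ ⟨i, rfl⟩
    exact h i

theorem cont_zero : cont R (0 : F[X]) = ⊥ := by
  rw [eq_bot_iff, cont_le]
  intro i
  simp

theorem cont_mul_le (f g : F[X]) : cont R (f * g) ≤ cont R f * cont R g := by
  rw [cont_le]
  intro i
  rw [coeff_mul]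
  exact Submodule.sum_mem _ fun p _ =>
    Submodule.mul_mem_mul (coeff_mem_cont f _) (coeff_mem_cont g _)

theorem mul_cont_of_mem {N : Submodule R F} {a : F} (ha : a ∈ N) (g : F[X]) (i : ℕ) :
    a * g.coeff i ∈ N * cont R g := Submodule.mul_mem_mul ha (coeff_mem_cont g i)

/-- `(a + b)^(d+1) ≤ a^(d+1) + b (a+b)^d`. -/
theorem sup_pow_succ_le (a b : Submodule R F) (d : ℕ) :
    (a ⊔ b) ^ (d + 1) ≤ a ^ (d + 1) ⊔ b * (a ⊔ b) ^ d := by
  induction d with
  | zero => simp
  | succ d ih =>
    calc (a ⊔ b) ^ (d + 1 + 1) = (a ⊔ b) * (a ⊔ b) ^ (d + 1) := by rw [pow_succ']
      _ = a * (a ⊔ b) ^ (d + 1) ⊔ b * (a ⊔ b) ^ (d + 1) := by rw [Submodule.sup_mul]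
      _ ≤ a ^ (d + 1 + 1) ⊔ b * (a ⊔ b) ^ (d + 1) := by
        refine sup_le ?_ le_sup_right
        refine (mulR a ih).trans ?_
        rw [Submodule.mul_sup]
        refine sup_le ?_ ?_
        · rw [← pow_succ']
          exact le_sup_left
        · refine le_trans ?_ le_sup_right
          rw [pow_succ' (a ⊔ b) d]
          calc a * (b * (a ⊔ b) ^ d) = b * (a * (a ⊔ b) ^ d) := by
                rw [← mul_assoc, ← mul_assoc, mul_comm a b]
            _ ≤ b * ((a ⊔ b) * (a ⊔ b) ^ d) := by
                apply mulR
                apply mulL
                exact le_sup_left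

theorem dm (d : ℕ) : ∀ (g : F[X]), (∀ j, d ≤ j → g.coeff j = 0) → ∀ f : F[X],
    cont R f ^ (d + 1) * cont R g ≤ cont R f ^ d * cont R (f * g) := by
  induction d with
  | zero =>
    intro g hg f
    have : g = 0 := by
      ext i
      rw [hg i (Nat.zero_le i), coeff_zero]
    rw [this, cont_zero, Submodule.mul_bot]
    exact bot_le
  | succ d ih =>
    intro g hg f
    -- induction on the length of f
    have key : ∀ r : ℕ, ∀ f : F[X], (∀ j, r ≤ j → f.coeff j = 0) →
        cont R f ^ (d + 1 + 1) * cont R g ≤ cont R f ^ (d + 1) * cont R (f * g) := by
      intro r
      induction r with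
      | zero =>
        intro f hf
        have : f = 0 := by
          ext i
          rw [hf i (Nat.zero_le i), coeff_zero]
        rw [this, cont_zero, Submodule.bot_pow (by omega), Submodule.bot_mul]
        exact bot_le
      | succ r ihr =>
        intro f hf
        set a := f.coeff r with ha
        set b := g.coeff d with hb
        set f' : F[X] := f - monomial r a with hf'
        set g' : F[X] := g - monomial d b with hg'
        have hf'0 : ∀ j, r ≤ j → f'.coeff j = 0 := by
          intro j hj
          rw [hf', coeff_sub, coeff_monomial]
          split_ifs with h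
          · rw [← h, ← ha, sub_self]
          · rw [hf j (by omega), sub_zero]
        have hg'0 : ∀ j, d ≤ j → g'.coeff j = 0 := by
          intro j hj
          rw [hg', coeff_sub, coeff_monomial]
          split_ifs with h
          · rw [← h, ← hb, sub_self]
          · rw [hg j (by omega), sub_zero]
        set H := cont R (f * g) with hH
        -- the top coefficient
        have htop : a * b ∈ H := by
          have : (f * g).coeff (r + d) = a * b := by
            rw [coeff_mul, Finset.sum_eq_single (r, d)]
            · rintro ⟨i, j⟩ hij hne
              rw [Finset.HasAntidiagonal.mem_antidiagonal] at hij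
              dsimp only at hij ⊢
              rcases lt_trichotomy i r with h | h | h
              · rw [hg j (by omega), mul_zero]
              · exact absurd (by ext <;> dsimp only <;> omega) hne
              · rw [hf i (by omega), zero_mul]
            · intro h
              exact absurd (by rw [Finset.HasAntidiagonal.mem_antidiagonal]) h
          rw [← this]
          exact coeff_mem_cont _ _
        -- (1)
        have h1 : ∀ i, ∀ y ∈ cont R f ^ (d + 1), y * (a * g.coeff i) ∈ cont R f ^ (d + 1) * H := by
          have h2 : cont R (f * (C a * g')) ≤ cont R f * H := by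
            rw [cont_le]
            intro i
            have e : f * (C a * g') = C a * (f * g) - f * monomial d (a * b) := by
              rw [hg', mul_sub, mul_sub, C_mul_monomial]
              ring
            rw [e, coeff_sub, coeff_C_mul]
            refine Submodule.sub_mem _ (mul_cont_of_mem (coeff_mem_cont f r) _ _) ?_
            rw [← C_mul_X_pow_eq_monomial, ← mul_assoc, coeff_mul_X_pow']
            split_ifs
            · rw [coeff_mul_C]
              exact Submodule.mul_mem_mul (coeff_mem_cont f _) htop
            · exact Submodule.zero_mem _
          have h3 := ih (C a * g') (fun j hj => by rw [coeff_C_mul, hg'0 j hj, mul_zero]) f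
          have h4 : cont R f ^ (d + 1) * cont R (C a * g') ≤ cont R f ^ (d + 1) * H := by
            refine h3.trans ?_
            refine (mulR _ h2).trans ?_
            rw [← mul_assoc, ← pow_succ]
          intro i y hy
          by_cases hi : i = d
          · subst hi
            exact Submodule.mul_mem_mul hy htop
          · have h5 : a * g.coeff i = (C a * g').coeff i := by
              rw [coeff_C_mul, hg', coeff_sub, coeff_monomial, if_neg (Ne.symm hi), sub_zero]
            rw [h5]
            exact h4 (Submodule.mul_mem_mul hy (coeff_mem_cont _ _))
        have h1' : Submodule.span R {a} * cont R f ^ (d + 1) * cont R g ≤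
            cont R f ^ (d + 1) * H := by
          rw [mul_assoc, Submodule.mul_le]
          intro x hx y hy
          rw [Submodule.mem_span_singleton] at hx
          obtain ⟨c, rfl⟩ := hx
          rw [smul_mul_assoc]
          apply Submodule.smul_mem
          revert y
          show ∀ y ∈ cont R f ^ (d + 1) * cont R g, a * y ∈ cont R f ^ (d + 1) * H
          have : cont R f ^ (d + 1) * cont R g ≤
              (cont R f ^ (d + 1) * H).comap (LinearMap.mulLeft R a) := by
            rw [Submodule.mul_le]
            intro u hu v hv
            have hv' : cont R g ≤ ((cont R f ^ (d + 1) * H).comap (LinearMap.mulLeft R a)).comap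
                (LinearMap.mulLeft R u) := by
              rw [cont_le]
              intro i
              have := h1 i u hu
              rw [mul_left_comm] at this
              exact this
            exact hv' hv
          intro y hy
          exact this hy
        -- f' part
        have hcf' : cont R f' ≤ cont R f := by
          rw [cont_le]
          intro i
          rw [hf', coeff_sub, coeff_monomial]
          split_ifs with h
          · rw [← h, ← ha, sub_self]
            exact Submodule.zero_mem _
          · rw [sub_zero]
            exact coeff_mem_cont _ _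
        have hcf : cont R f = cont R f' ⊔ Submodule.span R {a} := by
          apply le_antisymm
          · rw [cont_le]
            intro i
            by_cases hi : i = r
            · subst hi
              exact (le_sup_right : _ ≤ cont R f' ⊔ Submodule.span R {a})
                (Submodule.mem_span_singleton_self a)
            · have : f.coeff i = f'.coeff i := by
                rw [hf', coeff_sub, coeff_monomial, if_neg (Ne.symm hi), sub_zero]
              rw [this]
              exact (le_sup_left : _ ≤ cont R f' ⊔ Submodule.span R {a}) (coeff_mem_cont _ _)
          · refine sup_le hcf' ?_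
            rw [Submodule.span_singleton_le_iff_mem]
            exact coeff_mem_cont _ _
        have hcfg : cont R (f' * g) ≤ H ⊔ Submodule.span R {a} * cont R g := by
          rw [cont_le]
          intro i
          rw [hf', sub_mul, coeff_sub]
          refine Submodule.sub_mem _ ((le_sup_left : H ≤ _) (coeff_mem_cont _ _)) ?_
          refine (le_sup_right : Submodule.span R {a} * cont R g ≤ _) ?_
          rw [← C_mul_X_pow_eq_monomial, mul_assoc, coeff_C_mul]
          refine Submodule.mul_mem_mul (Submodule.mem_span_singleton_self a) ?_
          rw [X_pow_mul, coeff_mul_X_pow']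
          split_ifs
          · exact coeff_mem_cont _ _
          · exact Submodule.zero_mem _
        have h6 : cont R f' ^ (d + 1 + 1) * cont R g ≤ cont R f ^ (d + 1) * H := by
          refine (ihr f' hf'0).trans ?_
          refine (mulR _ hcfg).trans ?_
          refine (mulL _ (pow_le_pow_left' hcf' _)).trans ?_
          rw [Submodule.mul_sup]
          refine sup_le le_rfl ?_
          rw [← mul_assoc, mul_comm (cont R f ^ (d + 1)) (Submodule.span R {a})]
          exact h1'
        calc cont R f ^ (d + 1 + 1) * cont R g
            = (cont R f' ⊔ Submodule.span R {a}) ^ (d + 1 + 1) * cont R g := by rw [← hcf]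
          _ ≤ (cont R f' ^ (d + 1 + 1) ⊔ Submodule.span R {a} *
              (cont R f' ⊔ Submodule.span R {a}) ^ (d + 1)) * cont R g :=
              mulL _ (sup_pow_succ_le _ _ _)
          _ = cont R f' ^ (d + 1 + 1) * cont R g ⊔
              Submodule.span R {a} * cont R f ^ (d + 1) * cont R g := by
              rw [← hcf, Submodule.sup_mul]
          _ ≤ cont R f ^ (d + 1) * H := sup_le h6 h1'
    refine key (f.natDegree + 1) f ?_
    intro j hj
    exact coeff_eq_zero_of_natDegree_lt (by omega)

end Pool.R336.TC
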