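import Pool.Agent.R336.TC.Mult

/-!
Step 6: duality with respect to a canonical fractional ideal.
-/

set_option linter.unusedSectionVars false

namespace Pool.R336.TC

open Polynomial Submodule IsLocalRing
open scoped nonZeroDivisors TensorProduct

section
variable {R : Type*} [CommRing R] {V : Type*} [AddCommGroup V] [Module R V]

/-- The submodules of `B` containing `A` are the elements of the interval `[A, B]`. -/
def iciIso {A B : Submodule R V} (h : A ≤ B) :
    Set.Ici (A.submoduleOf B) ≃o Set.Icc A B where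
  toFun p := ⟨p.1.map B.subtype, by
    constructor
    · intro x hx
      exact ⟨⟨x, h hx⟩, p.2 hx, rfl⟩
    · exact Submodule.map_subtype_le B p.1⟩
  invFun q := ⟨q.1.submoduleOf B, Submodule.comap_mono q.2.1⟩
  left_inv p := by
    apply Subtype.ext
    show (p.1.map B.subtype).comap B.subtype = p.1
    exact Submodule.comap_map_eq_of_injective B.injective_subtype p.1
  right_inv q := by
    apply Subtype.ext
    show (q.1.comap B.subtype).map B.subtype = q.1
    rw [Submodule.map_comap_subtype]
    exact inf_eq_right.mpr q.2.2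
  map_rel_iff' := by
    intro p q
    show p.1.map B.subtype ≤ q.1.map B.subtype ↔ p.1 ≤ q.1
    exact Submodule.map_le_map_iff_of_injective B.injective_subtype p.1 q.1

theorem len_eq_krullDim {A B : Submodule R V} (h : A ≤ B) :
    ((len A B : ℕ∞) : WithBot ℕ∞) = Order.krullDim (Set.Icc A B) := by
  unfold len
  rw [Module.length_quotient, Order.coheight_eq_krullDim_Ici,
    Order.krullDim_eq_of_orderIso (iciIso h)]

end

variable {R : Type*} [CommRing R] [IsDomain R] [IsLocalRing R] [IsNoetherianRing R]
  {F : Type*} [Field F] [Algebra R F] [IsFractionRing R F]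

/-- A canonical fractional ideal in the sense of Herzog and Kunz. -/
structure IsCanon (K : Submodule R F) : Prop where
  lat : Lat K
  bidual : ∀ N : Submodule R F, Lat N → K / (K / N) = N

theorem lat_icc {A B N : Submodule R F} (hA : Lat A) (hB : Lat B) (hN : N ∈ Set.Icc A B) :
    Lat N := hB.of_le hN.2 (Lat.ne_bot_of_le hA.ne hN.1)

/-- Duality reverses intervals. -/
def dualIso {K A B : Submodule R F} (hK : IsCanon K) (hA : Lat A) (hB : Lat B) :
    Set.Icc (K / B) (K / A) ≃o (Set.Icc A B)ᵒᵈ where
  toFun Y := OrderDual.toDual ⟨K / Y.1, by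
    constructor
    · have := div_antitone (C := K) Y.2.2
      rwa [hK.bidual A hA] at this
    · have := div_antitone (C := K) Y.2.1
      rwa [hK.bidual B hB] at this⟩
  invFun N := ⟨K / (OrderDual.ofDual N).1, div_antitone (OrderDual.ofDual N).2.2,
    div_antitone (OrderDual.ofDual N).2.1⟩
  left_inv Y := by
    apply Subtype.ext
    show K / (K / Y.1) = Y.1
    exact hK.bidual _ (lat_icc (hK.lat.div hB) (hK.lat.div hA) Y.2)
  right_inv N := by
    apply OrderDual.ofDual.injective
    apply Subtype.ext
    show K / (K / (OrderDual.ofDual N).1) = (OrderDual.ofDual N).1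
    exact hK.bidual _ (lat_icc hA hB (OrderDual.ofDual N).2)
  map_rel_iff' := by
    intro Y Y'
    show K / Y'.1 ≤ K / Y.1 ↔ Y.1 ≤ Y'.1
    constructor
    · intro h
      have := div_antitone (C := K) h
      rwa [hK.bidual _ (lat_icc (hK.lat.div hB) (hK.lat.div hA) Y.2),
        hK.bidual _ (lat_icc (hK.lat.div hB) (hK.lat.div hA) Y'.2)] at this
    · exact fun h => div_antitone h

theorem len_dual {K A B : Submodule R F} (hK : IsCanon K) (hA : Lat A) (hB : Lat B)
    (h : A ≤ B) : len (K / B) (K / A) = len A B := by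
  have h1 := len_eq_krullDim h
  have h2 := len_eq_krullDim (div_antitone (C := K) h)
  rw [Order.krullDim_eq_of_orderIso (dualIso hK hA hB), Order.krullDim_orderDual, ← h1] at h2
  exact_mod_cast h2

theorem le_div_of_mul_le {A B C : Submodule R F} (h : A * C ≤ B) : A ≤ B / C := by
  rwa [Submodule.le_div_iff_mul_le]

/-- The blow-up ring `B = m : m`. -/
def BB (R : Type*) [CommRing R] [IsDomain R] [IsLocalRing R] [IsNoetherianRing R]
    (F : Type*) [Field F] [Algebra R F] [IsFractionRing R F] : Submodule R F :=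
  mF R F / mF R F

theorem one_le_BB : (1 : Submodule R F) ≤ BB R F := by
  apply le_div_of_mul_le
  rw [one_mul]

theorem le_BB_mul (N : Submodule R F) : N ≤ BB R F * N := by
  have := mulL N (one_le_BB (R := R) (F := F))
  rwa [one_mul] at this

theorem BB_mul_mF : BB R F * mF R F = mF R F :=
  le_antisymm (mul_div_self_le _ _) (le_BB_mul _)

theorem BB_mul_BB_le : BB R F * BB R F ≤ BB R F := by
  apply le_div_of_mul_le
  rw [mul_assoc, BB_mul_mF, BB_mul_mF]

theorem BB_lat (hm : maximalIdeal R ≠ ⊥) : Lat (BB R F) := (Lat.mF hm).div (Lat.mF hm)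

theorem stable_div {K X : Submodule R F} (h : BB R F * X ≤ X) : BB R F * (K / X) ≤ K / X := by
  apply le_div_of_mul_le
  calc BB R F * (K / X) * X = (K / X) * (BB R F * X) := by
        rw [mul_comm (BB R F) (K / X), mul_assoc]
    _ ≤ (K / X) * X := mulR _ h
    _ ≤ K := mul_div_self_le _ _

variable [Ring.KrullDimLE 1 R]

theorem six_star (hm : maximalIdeal R ≠ ⊥) {e : ℕ} (he : MultNum R F e) {K : Submodule R F}
    (hK : IsCanon K) {N : Submodule R F} (hN : Lat N) (hmu : mu R N = e) :
    K / N = mF R F * ((K / N) / mF R F) := by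
  apply le_antisymm ?_
  · rw [mul_comm]
    exact mul_div_self_le _ _
  have hKN : Lat (K / N) := hK.lat.div hN
  have hM : Lat ((K / N) / mF R F) := hKN.div (Lat.mF hm)
  have h1 : K / N ≤ (K / N) / mF R F := by
    apply le_div_of_mul_le
    rw [mul_comm]
    exact mF_mul_le _
  have h2 : mF R F * ((K / N) / mF R F) ≤ K / N := by
    rw [mul_comm]
    exact mul_div_self_le _ _
  have h3 : len (K / N) ((K / N) / mF R F) = (e : ℕ∞) := by
    rw [div_div, mul_comm N, len_dual hK ((Lat.mF hm).mul hN) hN (mF_mul_le N), len_mF N hN.fg,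
      hmu]
  have h4 := len_add h2 h1
  rw [h3, len_mF _ hM.fg] at h4
  have h5 := mu_le hm he hM
  have h6 : len (mF R F * ((K / N) / mF R F)) (K / N) ≠ ⊤ := by
    intro h
    rw [h, top_add] at h4
    exact ENat.natCast_ne_top _ h4
  obtain ⟨x, hx⟩ := ENat.ne_top_iff_exists.mp h6
  rw [← hx] at h4
  have h7 : mu R ((K / N) / mF R F : Submodule R F) = x + e := by exact_mod_cast h4
  have h8 : x = 0 := by omega
  rw [h8] at hx
  exact len_eq_zero_iff.mp (by rw [← hx]; rfl)

variable (hm : maximalIdeal R ≠ ⊥) {e : ℕ} (he : MultNum R F e)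
  (hmin : mu R (mF R F) = e)
  {K : Submodule R F} (hK : IsCanon K)

include hm he hmin hK

theorem claim1 : BB R F = mF R F * (BB R F / mF R F) := by
  have hKm : Lat (K / mF R F) := hK.lat.div (Lat.mF hm)
  have h0 : mu R (mF R F * (K / mF R F) : Submodule R F) = e :=
    step5 hm he (Lat.mF hm) hKm hmin
  have h1 : K / (mF R F * (K / mF R F)) = BB R F := by
    rw [mul_comm, ← div_div, hK.bidual _ (Lat.mF hm)]
    rfl
  have h2 := six_star hm he hK ((Lat.mF hm).mul hKm) h0
  rwa [h1] at h2

theorem claim2 {N : Submodule R F} (hN : Lat N) (h : BB R F * N ≤ N) : mu R N = e := by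
  have h1 : N = mF R F * ((BB R F / mF R F) * N) := by
    rw [← mul_assoc, ← claim1 hm he hmin hK]
    exact le_antisymm (le_BB_mul N) h
  rw [h1]
  exact step5 hm he (Lat.mF hm) (((BB_lat hm).div (Lat.mF hm)).mul hN) hmin

omit hmin in
theorem claim3 {N : Submodule R F} (hN : Lat N) (h : mu R N = e) : BB R F * N ≤ N := by
  have h1 := six_star hm he hK hN h
  have h2 : BB R F * (K / N) ≤ K / N := by
    rw [h1, ← mul_assoc, BB_mul_mF]
  have h3 := stable_div (K := K) h2
  rwa [hK.bidual N hN] at h3

theorem core7 {I : Submodule R F} (hI : Lat I)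
    (hprod : mu R I * mu R (K / I : Submodule R F) = mu R (I * (K / I) : Submodule R F))
    (ha1 : mu R I ≠ 0) (hb1 : mu R (K / I : Submodule R F) ≠ 0) :
    mu R I = 1 ∨ mu R (K / I : Submodule R F) = 1 := by
  set J := K / I with hJ
  have hJl : Lat J := hK.lat.div hI
  set L := I / mF R F with hL
  have hLl : Lat L := hI.div (Lat.mF hm)
  have hmI : Lat (mF R F * I) := (Lat.mF hm).mul hI
  have hIJ : K / J = I := hK.bidual I hI
  have hb : len I L = (mu R J : ℕ∞) := by
    have h1 := len_dual hK ((Lat.mF hm).mul hJl) hJl (mF_mul_le J)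
    rw [len_mF J hJl.fg, mul_comm, ← div_div, hIJ] at h1
    exact h1
  have hIL : I ≤ L := by
    apply le_div_of_mul_le
    rw [mul_comm]
    exact mF_mul_le _
  have hBI : BB R F * I ≤ L := by
    apply le_div_of_mul_le
    rw [mul_comm (BB R F) I, mul_assoc, BB_mul_mF, mul_comm]
    exact mF_mul_le _
  have hBIl : Lat (BB R F * I) := (BB_lat hm).mul hI
  have hmBI : mF R F * (BB R F * I) = mF R F * I := by
    rw [← mul_assoc, mul_comm (mF R F) (BB R F), BB_mul_mF]
  have hab : len (mF R F * I) L = ((mu R I + mu R J : ℕ) : ℕ∞) := by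
    rw [len_add (mF_mul_le I) hIL, hb, len_mF I hI.fg]
    push_cast
    rfl
  have hBe : mu R (BB R F * I : Submodule R F) = e := by
    apply claim2 hm he hmin hK hBIl
    rw [← mul_assoc]
    exact mulL _ BB_mul_BB_le
  have he1 : e ≤ mu R I + mu R J := by
    have h1 : len (mF R F * I) (BB R F * I) = (e : ℕ∞) := by
      rw [← hmBI, len_mF _ hBIl.fg, hBe]
    have h2 := len_mono_right (A := mF R F * I) ((mF_mul_le I).trans (le_BB_mul I)) hBI
    rw [h1, hab] at h2
    exact_mod_cast h2
  have he2 : mu R (I * J : Submodule R F) ≤ e := mu_le hm he (hI.mul hJl)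
  by_contra hcon
  rw [not_or] at hcon
  obtain ⟨hc1, hc2⟩ := hcon
  have ha2 : 2 ≤ mu R I := by omega
  have hb2 : 2 ≤ mu R J := by omega
  have h5 : mu R I * mu R J ≤ mu R I + mu R J := by omega
  have h6 : mu R I = 2 ∧ mu R J = 2 := by
    constructor <;> nlinarith
  have h7 : e = 4 := by
    rw [h6.1, h6.2] at he1 hprod
    omega
  have h8 : mu R (I * J : Submodule R F) = e := by
    rw [← hprod, h6.1, h6.2, h7]
  have h9 := claim3 hm he hK (hI.mul hJl) h8
  have h10 := stable_div (K := K) h9
  rw [← div_div, ← hJ] at h10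
  have h11 : BB R F ≤ J / J := by
    refine le_trans ?_ h10
    have h12 : (1 : Submodule R F) ≤ J / J := by
      apply le_div_of_mul_le
      rw [one_mul]
    have := mulR (BB R F) h12
    rwa [mul_one] at this
  have h13 : BB R F * J ≤ J := (mulL J h11).trans (mul_div_self_le _ _)
  have h14 := claim2 hm he hmin hK hJl h13
  omega

end Pool.R336.TC
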