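import Pool.Agent.R336.TC.Rank

/-!
Ext computations: type one in elementary terms; divisible modules of finite injective dimension
over a one-dimensional Noetherian local domain are injective.
-/

set_option linter.unusedSectionVars false

universe u

namespace Pool.R336.TC

open Submodule IsLocalRing CategoryTheory Abelian Limits
open scoped nonZeroDivisors Pointwise

variable {R : Type u} [CommRing R]

theorem ext_mk0_eq {X Y : ModuleCat.{u} R} (e : Ext X Y 0) : ∃ f : X ⟶ Y, Ext.mk₀ f = e :=
  ⟨Ext.homEquiv₀ e, Ext.homEquiv₀.symm_apply_apply e⟩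

theorem ext_mk0_inj {X Y : ModuleCat.{u} R} {f g : X ⟶ Y} (h : Ext.mk₀ f = Ext.mk₀ g) : f = g :=
  Ext.homEquiv₀.symm.injective h

theorem ext_eq_zero_of_isZero_left {X Y : ModuleCat.{u} R} (hX : IsZero X) {n : ℕ}
    (e : Ext X Y n) : e = 0 := by
  rw [← Ext.mk₀_id_comp e, hX.eq_zero_of_src (𝟙 X), Ext.mk₀_zero, Ext.zero_comp]

theorem ext_eq_zero_of_isZero_right {X Y : ModuleCat.{u} R} (hY : IsZero Y) {n : ℕ}
    (e : Ext X Y n) : e = 0 := by
  rw [← Ext.comp_mk₀_id e, hY.eq_zero_of_src (𝟙 Y), Ext.mk₀_zero, Ext.comp_zero]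

/-- `ω` has type one: `Ext¹(k, ω) ≅ k`. -/
theorem typeOne_of_ext [IsLocalRing R] {ω : Type u} [AddCommGroup ω] [Module R ω]
    (htf : ∀ r : R, r ≠ 0 → ∀ v : ω, r • v = 0 → v = 0)
    (hE : Nonempty (Ext (ModuleCat.of R (R ⧸ maximalIdeal R)) (ModuleCat.of R ω) 1 ≃ₗ[R]
      (R ⧸ maximalIdeal R))) : TypeOne R ω := by
  obtain ⟨θ⟩ := hE
  intro x hx hx0 t t' ht ht' htx
  have reg : IsSMulRegular (ModuleCat.of R ω) x := by
    intro a b hab
    have h1 : x • (a - b : ω) = 0 := by
      rw [smul_sub, sub_eq_zero]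
      exact hab
    exact sub_eq_zero.mp (htf x hx0 _ h1)
  have hS := reg.smulShortComplex_shortExact
  set S := ModuleCat.smulShortComplex (ModuleCat.of R ω) x with hSdef
  -- the maps `k → ω/xω`
  have hmap : ∀ s : ω, (∀ a ∈ maximalIdeal R, a • s ∈ x • (⊤ : Submodule R ω)) →
      ∃ φ : (R ⧸ maximalIdeal R) →ₗ[R] (ω ⧸ (x • (⊤ : Submodule R ω))),
        φ (Submodule.Quotient.mk 1) = Submodule.Quotient.mk s := by
    intro s hs
    refine ⟨Submodule.liftQ (maximalIdeal R) (LinearMap.toSpanSingleton R _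
      (Submodule.Quotient.mk s : ω ⧸ (x • (⊤ : Submodule R ω)))) ?_, ?_⟩
    · intro a ha
      rw [LinearMap.mem_ker, LinearMap.toSpanSingleton_apply, ← Submodule.Quotient.mk_smul,
        Submodule.Quotient.mk_eq_zero]
      exact hs a ha
    · rw [Submodule.liftQ_apply, LinearMap.toSpanSingleton_apply, one_smul]
  have hinj : ∀ ψ : (R ⧸ maximalIdeal R) →ₗ[R] (ω ⧸ (x • (⊤ : Submodule R ω))),
      (Ext.mk₀ (ModuleCat.ofHom ψ : ModuleCat.of R (R ⧸ maximalIdeal R) ⟶ S.X₃)).comp
        hS.extClass (zero_add 1) = 0 → ψ = 0 := by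
    intro ψ hψ
    obtain ⟨x₂, hx₂⟩ := Ext.covariant_sequence_exact₃ _ hS _ (zero_add 1) hψ
    obtain ⟨f, rfl⟩ := ext_mk0_eq x₂
    have hf : f = 0 := by
      apply ModuleCat.hom_ext
      apply LinearMap.ext
      intro y
      have h1 : x • (f.hom y : ω) = 0 := by
        have h2 : x • y = 0 := by
          obtain ⟨r, rfl⟩ := Submodule.Quotient.mk_surjective _ y
          rw [← Submodule.Quotient.mk_smul, Submodule.Quotient.mk_eq_zero, smul_eq_mul]
          exact Ideal.mul_mem_right _ _ hx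
        have h3 := congrArg f.hom h2
        rw [map_smul, map_zero] at h3
        exact h3
      exact htf x hx0 _ h1
    rw [hf, Ext.mk₀_zero, Ext.zero_comp, ← Ext.mk₀_zero] at hx₂
    have h4 := ext_mk0_inj hx₂
    have h5 := congrArg ModuleCat.Hom.hom h4
    exact h5.symm
  obtain ⟨φ, hφ⟩ := hmap t ht
  obtain ⟨φ', hφ'⟩ := hmap t' ht'
  set e : Ext (ModuleCat.of R (R ⧸ maximalIdeal R)) (ModuleCat.of R ω) 1 :=
    (Ext.mk₀ (ModuleCat.ofHom φ : ModuleCat.of R (R ⧸ maximalIdeal R) ⟶ S.X₃)).comp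
      hS.extClass (zero_add 1) with he
  set e' : Ext (ModuleCat.of R (R ⧸ maximalIdeal R)) (ModuleCat.of R ω) 1 :=
    (Ext.mk₀ (ModuleCat.ofHom φ' : ModuleCat.of R (R ⧸ maximalIdeal R) ⟶ S.X₃)).comp
      hS.extClass (zero_add 1) with he'
  have he0 : e ≠ 0 := by
    intro h0
    have h1 := hinj φ h0
    rw [h1, LinearMap.zero_apply] at hφ
    exact htx ((Submodule.Quotient.mk_eq_zero _).mp hφ.symm)
  have hθ : θ e ≠ 0 := by
    intro h
    exact he0 ((map_eq_zero_iff θ θ.injective).mp h)
  obtain ⟨c, hc⟩ := Ideal.Quotient.mk_surjective (θ e)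
  obtain ⟨c', hc'⟩ := Ideal.Quotient.mk_surjective (θ e')
  have hcu : IsUnit c := by
    by_contra h
    apply hθ
    rw [← hc, Ideal.Quotient.eq_zero_iff_mem]
    exact (IsLocalRing.mem_maximalIdeal c).mpr h
  obtain ⟨d, hd⟩ := hcu.exists_right_inv
  have hrel : e' = (c' * d) • e := by
    apply θ.injective
    rw [map_smul, ← hc, ← hc']
    show Ideal.Quotient.mk _ c' = Ideal.Quotient.mk _ ((c' * d) • c)
    rw [smul_eq_mul, mul_assoc, mul_comm d c, hd, mul_one]
  refine ⟨c' * d, ?_⟩
  have hz : (Ext.mk₀ (ModuleCat.ofHom (φ' - (c' * d) • φ) :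
      ModuleCat.of R (R ⧸ maximalIdeal R) ⟶ S.X₃)).comp hS.extClass (zero_add 1) = 0 := by
    have h1 : (ModuleCat.ofHom (φ' - (c' * d) • φ) :
        ModuleCat.of R (R ⧸ maximalIdeal R) ⟶ S.X₃) =
        ModuleCat.ofHom φ' - (c' * d) • ModuleCat.ofHom φ := rfl
    have h2 : (Ext.mk₀ (ModuleCat.ofHom (φ' - (c' * d) • φ) :
        ModuleCat.of R (R ⧸ maximalIdeal R) ⟶ S.X₃)) =
        Ext.mk₀ (ModuleCat.ofHom φ' : ModuleCat.of R (R ⧸ maximalIdeal R) ⟶ S.X₃) -
          (c' * d) • Ext.mk₀ (ModuleCat.ofHom φ : ModuleCat.of R (R ⧸ maximalIdeal R) ⟶ S.X₃) := by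
      rw [eq_sub_iff_add_eq, ← Ext.mk₀_smul, ← Ext.mk₀_add, h1, sub_add_cancel]
    have h3 : ∀ a b : Ext (ModuleCat.of R (R ⧸ maximalIdeal R)) S.X₃ 0,
        (a - b).comp hS.extClass (zero_add 1) =
          a.comp hS.extClass (zero_add 1) - b.comp hS.extClass (zero_add 1) := by
      intro a b
      rw [eq_sub_iff_add_eq, ← Ext.add_comp, sub_add_cancel]
    have h4 : (Ext.mk₀ (ModuleCat.ofHom (φ' - (c' * d) • φ) :
        ModuleCat.of R (R ⧸ maximalIdeal R) ⟶ S.X₃)).comp hS.extClass (zero_add 1) =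
        e' - (c' * d) • e :=
      ((congrArg (fun z : Ext (ModuleCat.of R (R ⧸ maximalIdeal R)) S.X₃ 0 =>
        z.comp hS.extClass (zero_add 1)) h2).trans (h3 _ _)).trans
        (congrArg (fun z => e' - z) (Ext.smul_comp _ _ _ _))
    exact h4.trans (sub_eq_zero.mpr hrel)
  have h1 := hinj _ hz
  have h2 := LinearMap.congr_fun h1 (Submodule.Quotient.mk 1)
  rw [LinearMap.sub_apply, LinearMap.smul_apply, hφ, hφ', LinearMap.zero_apply,
    ← Submodule.Quotient.mk_smul, ← Submodule.Quotient.mk_sub, Submodule.Quotient.mk_eq_zero] at h2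
  exact h2

/-- Divisible modules over a domain. -/
def Divis (R : Type u) [CommRing R] (Q : Type u) [AddCommGroup Q] [Module R Q] : Prop :=
  ∀ x : R, x ≠ 0 → ∀ q : Q, ∃ q' : Q, x • q' = q

theorem divis_of_injective [IsDomain R] {Q : Type u} [AddCommGroup Q] [Module R Q]
    (h : Module.Injective R Q) : Divis R Q := by
  intro x hx q
  obtain ⟨g, hg⟩ := h.out (LinearMap.lsmul R R x) (by
    intro a b hab
    exact mul_left_cancel₀ hx hab) (LinearMap.toSpanSingleton R Q q)
  refine ⟨g 1, ?_⟩
  have h1 := hg 1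
  rw [LinearMap.toSpanSingleton_apply, one_smul, LinearMap.lsmul_apply] at h1
  rw [← map_smul, h1]

variable [IsDomain R] [IsLocalRing R] [IsNoetherianRing R] [Ring.KrullDimLE 1 R]

/-- `Ext¹(R/x, Q) = 0` for divisible `Q`. -/
theorem ext_quot_eq_zero {Q : ModuleCat.{u} R} (hQ : Divis R Q) {x : R} (hx : x ≠ 0)
    (e : Ext (ModuleCat.of R (R ⧸ (x • (⊤ : Submodule R R)))) Q 1) : e = 0 := by
  have reg : IsSMulRegular (ModuleCat.of R R) x := by
    intro a b hab
    exact mul_left_cancel₀ hx hab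
  have hS := reg.smulShortComplex_shortExact
  set S := ModuleCat.smulShortComplex (ModuleCat.of R R) x with hSdef
  have hproj : Projective S.X₂ := by
    show Projective (ModuleCat.of R R)
    infer_instance
  obtain ⟨y, hy⟩ := Ext.contravariant_sequence_exact₃ hS Q e
    (Ext.eq_zero_of_projective _) (add_zero 1)
  obtain ⟨φ, rfl⟩ := ext_mk0_eq y
  let φ₀ : R →ₗ[R] Q := φ.hom
  obtain ⟨q', hq'⟩ := hQ x hx (φ₀ 1)
  let ψ : S.X₂ ⟶ Q := ModuleCat.ofHom (LinearMap.toSpanSingleton R Q q')
  have h1 : φ = S.f ≫ ψ := by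
    apply ModuleCat.hom_ext
    refine LinearMap.ext (fun (r : R) => ?_)
    have h2 : φ₀ r = (r : R) • φ₀ 1 := by
      rw [← map_smul, smul_eq_mul, mul_one]
    refine h2.trans ?_
    rw [← hq']
    show (r : R) • x • q' = (x * (r : R)) • q'
    rw [smul_smul, mul_comm]
  rw [← hy, h1, ← Ext.mk₀_comp_mk₀, ShortComplex.ShortExact.extClass_comp_assoc]
  rfl

theorem ext_one_eq_zero {Q : ModuleCat.{u} R} (hm : maximalIdeal R ≠ ⊥) (hQ : Divis R Q)
    (hd : HasInjectiveDimensionLT Q 2) (N : Type u) [AddCommGroup N] [Module R N]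
    [hN : Module.Finite R N] : ∀ e : Ext (ModuleCat.of R N) Q 1, e = 0 := by
  induction hN using IsNoetherianRing.induction_on_isQuotientEquivQuotientPrime R with
  | subsingleton N =>
    intro e
    exact ext_eq_zero_of_isZero_left (ModuleCat.isZero_of_subsingleton _) e
  | quotient N p f =>
    intro e
    by_cases hp : p.1 = ⊥
    · have e1 : N ≃ₗ[R] R := f.trans ((Submodule.quotEquivOfEqBot p.1 hp))
      have : Module.Projective R N := Module.Projective.of_equiv e1.symm
      exact Ext.eq_zero_of_projective e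
    · have hpm : p.1 = maximalIdeal R := by
        have := p.2.isMaximal_of_ne_bot hp
        exact IsLocalRing.eq_maximalIdeal this
      obtain ⟨x, hx, hx0⟩ := Submodule.exists_mem_ne_zero_of_ne_bot hm
      set D : Submodule R R := x • (⊤ : Submodule R R) with hD
      have hDs : D = Ideal.span {x} := by
        rw [hD, ← Submodule.ideal_span_singleton_smul, smul_eq_mul, Ideal.mul_top]
      have hDm : D ≤ maximalIdeal R := by
        rw [hDs, Ideal.span_le]
        rintro _ rfl
        exact hx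
      -- socle element of `R/x`
      obtain ⟨s, hsD, hsm⟩ : ∃ s : R, s ∉ D ∧ ∀ b ∈ maximalIdeal R, b * s ∈ D := by
        have hDne : D ≠ ⊥ := by
          rw [hDs, Ne, Ideal.span_singleton_eq_bot]
          exact hx0
        have hN := exists_pow_le (D := D) hDne
        classical
        have hN0 := Nat.find_spec hN
        have hNm := fun {k} => Nat.find_min (m := k) hN
        set N := Nat.find hN with hNdef
        have hNpos : N ≠ 0 := by
          intro h0
          rw [h0, pow_zero, Ideal.one_eq_top, top_le_iff] at hN0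
          rw [hN0, top_le_iff] at hDm
          exact (IsLocalRing.maximalIdeal.isMaximal R).ne_top hDm
        have h1 : ¬ maximalIdeal R ^ (N - 1) ≤ D := hNm (by omega)
        obtain ⟨a, ha, haJ'⟩ := Set.not_subset.mp h1
        refine ⟨a, haJ', ?_⟩
        intro b hb
        apply hN0
        have : maximalIdeal R ^ N = maximalIdeal R * (maximalIdeal R ^ (N - 1)) := by
          rw [← pow_succ']
          congr 1
          omega
        rw [this]
        exact Ideal.mul_mem_mul hb ha
      let g : (R ⧸ p.1) →ₗ[R] (R ⧸ D) := Submodule.liftQ p.1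
        (LinearMap.toSpanSingleton R (R ⧸ D) (Submodule.Quotient.mk s)) (by
          intro a ha
          rw [LinearMap.mem_ker, LinearMap.toSpanSingleton_apply, ← Submodule.Quotient.mk_smul,
            Submodule.Quotient.mk_eq_zero]
          rw [hpm] at ha
          exact hsm a ha)
      have hg : ∀ r : R, g (Submodule.Quotient.mk r) = Submodule.Quotient.mk (r * s) := by
        intro r
        show Submodule.liftQ p.1 _ _ (Submodule.Quotient.mk r) = _
        rw [Submodule.liftQ_apply, LinearMap.toSpanSingleton_apply, ← Submodule.Quotient.mk_smul,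
          smul_eq_mul]
      have hginj : Function.Injective g := by
        rw [injective_iff_map_eq_zero]
        intro y hy
        obtain ⟨r, rfl⟩ := Submodule.Quotient.mk_surjective _ y
        rw [hg, Submodule.Quotient.mk_eq_zero] at hy
        rw [Submodule.Quotient.mk_eq_zero, hpm, IsLocalRing.mem_maximalIdeal]
        intro hr
        obtain ⟨r', hr'⟩ := hr.exists_left_inv
        apply hsD
        have := D.smul_mem r' hy
        rwa [smul_eq_mul, ← mul_assoc, hr', one_mul] at this
      let ι : ModuleCat.of R N ⟶ ModuleCat.of R (R ⧸ D) :=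
        ModuleCat.ofHom (g.comp f.toLinearMap)
      have hmono : Mono ι := by
        rw [ModuleCat.mono_iff_injective]
        exact hginj.comp f.injective
      let T := ShortComplex.mk ι (cokernel.π ι) (cokernel.condition ι)
      have T_exact : T.ShortExact := { exact := ShortComplex.exact_cokernel ι }
      obtain ⟨x₂, hx₂⟩ := Ext.contravariant_sequence_exact₁ T_exact Q e (n₁ := 2) (by norm_num)
        (Ext.eq_zero_of_hasInjectiveDimensionLT _ 2 le_rfl)
      have h3 : x₂ = 0 := ext_quot_eq_zero hQ hx0 x₂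
      rw [← hx₂, h3, Ext.comp_zero]
  | exact N₁ N₂ N₃ f g hf hg hfg h₁ h₃ =>
    intro e
    let S : ShortComplex (ModuleCat.{u} R) :=
      ModuleCat.shortComplexOfCompEqZero f g hfg.linearMap_comp_eq_zero
    have hS : S.ShortExact := ModuleCat.shortComplex_shortExact S hfg hf hg
    obtain ⟨x₁, hx₁⟩ := Ext.contravariant_sequence_exact₂ hS Q e (h₁ _)
    rw [← hx₁, h₃ x₁, Ext.comp_zero]

theorem injective_of_ext_one {Q : ModuleCat.{u} R}
    (h : ∀ J : Ideal R, ∀ e : Ext (ModuleCat.of R (R ⧸ J)) Q 1, e = 0) : Module.Injective R Q := by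
  apply Module.Baer.injective
  intro J g
  let S : ShortComplex (ModuleCat.{u} R) :=
    ModuleCat.shortComplexOfCompEqZero J.subtype J.mkQ (by
      apply LinearMap.ext
      intro x
      rw [LinearMap.comp_apply, Submodule.mkQ_apply, LinearMap.zero_apply,
        Submodule.Quotient.mk_eq_zero]
      exact x.2)
  have hS : S.ShortExact := by
    refine ModuleCat.shortComplex_shortExact S ?_ J.injective_subtype (Submodule.mkQ_surjective _)
    exact LinearMap.exact_subtype_mkQ J
  obtain ⟨x₂, hx₂⟩ := Ext.contravariant_sequence_exact₁ hS Q (Ext.mk₀ (ModuleCat.ofHom g))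
    (n₁ := 1) (by norm_num) (h J _)
  obtain ⟨φ, rfl⟩ := ext_mk0_eq x₂
  rw [Ext.mk₀_comp_mk₀] at hx₂
  have h1 := ext_mk0_inj hx₂
  refine ⟨φ.hom, ?_⟩
  intro x hx
  have h2 := congrArg ModuleCat.Hom.hom h1
  exact LinearMap.congr_fun h2 ⟨x, hx⟩

theorem injective_of_finite_injdim (hm : maximalIdeal R ≠ ⊥) (n : ℕ) :
    ∀ Q : ModuleCat.{u} R, Divis R Q → HasInjectiveDimensionLT Q (n + 1) →
      Injective Q := by
  induction n with
  | zero =>
    intro Q _ h
    exact injective_iff_hasInjectiveDimensionLT_one.mpr h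
  | succ n ih =>
    intro Q hQ h
    have ei : EnoughInjectives (ModuleCat.{u} R) := inferInstance
    rcases ei.1 Q with ⟨E, inj, f, monof⟩
    let T := ShortComplex.mk f (cokernel.π f) (cokernel.condition f)
    have T_exact : T.ShortExact := { exact := ShortComplex.exact_cokernel f }
    have h3 : HasInjectiveDimensionLT T.X₃ (n + 1) :=
      (T_exact.hasInjectiveDimensionLT_X₃_iff n inj).mpr h
    have hE : Module.Injective R E := Module.injective_module_of_injective_object R E
    have hdE := divis_of_injective hE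
    have hepi : Function.Surjective (cokernel.π f) :=
      (ModuleCat.epi_iff_surjective (cokernel.π f)).mp inferInstance
    have hd3 : Divis R T.X₃ := by
      intro x hx q
      obtain ⟨y, rfl⟩ := hepi q
      obtain ⟨y', rfl⟩ := hdE x hx y
      refine ⟨(cokernel.π f).hom y', ?_⟩
      rw [← map_smul]
    have hinj3 := ih T.X₃ hd3 h3
    have h4 : HasInjectiveDimensionLT T.X₃ 1 := inferInstance
    have h5 : HasInjectiveDimensionLT T.X₁ 2 :=
      (T_exact.hasInjectiveDimensionLT_X₃_iff 0 inj).mp h4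
    have h6 : Module.Injective R Q := injective_of_ext_one
      (fun J e => ext_one_eq_zero hm hQ h5 (R ⧸ J) e)
    exact (Module.injective_iff_injective_object R Q).mp h6

end Pool.R336.TC
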