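import Pool.Agent.R336.TC.Len
import Pool.Agent.R336.TC.DM

/-!
Lattices (nonzero finitely generated submodules) in the fraction field of a one-dimensional
Noetherian local domain.
-/

set_option linter.unusedSectionVars false

namespace Pool.R336.TC

open Polynomial Submodule IsLocalRing
open scoped nonZeroDivisors TensorProduct

section Basic

variable {R : Type*} [CommRing R] {F : Type*} [Field F] [Algebra R F]

/-- Nonzero finitely generated submodules of the field `F`. -/
structure Lat (N : Submodule R F) : Prop where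
  fg : N.FG
  ne : N ≠ ⊥

theorem Lat.mul {A B : Submodule R F} (hA : Lat A) (hB : Lat B) : Lat (A * B) := by
  refine ⟨hA.fg.mul hB.fg, ?_⟩
  obtain ⟨a, ha, ha0⟩ := Submodule.exists_mem_ne_zero_of_ne_bot hA.ne
  obtain ⟨b, hb, hb0⟩ := Submodule.exists_mem_ne_zero_of_ne_bot hB.ne
  intro h
  have := Submodule.mul_mem_mul ha hb
  rw [h, Submodule.mem_bot] at this
  exact (mul_ne_zero ha0 hb0) this

theorem Lat.one : Lat (1 : Submodule R F) := by
  refine ⟨?_, ?_⟩
  · rw [Submodule.one_eq_span]
    exact Submodule.fg_span_singleton _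
  · intro h
    have : (1 : F) ∈ (1 : Submodule R F) := Submodule.one_le.mp le_rfl
    rw [h, Submodule.mem_bot] at this
    exact one_ne_zero this

theorem Lat.pow {A : Submodule R F} (hA : Lat A) (n : ℕ) : Lat (A ^ n) := by
  induction n with
  | zero => rw [pow_zero]; exact Lat.one
  | succ n ih => rw [pow_succ]; exact ih.mul hA

theorem Lat.span {a : F} (ha : a ≠ 0) : Lat (Submodule.span R {a}) :=
  ⟨Submodule.fg_span_singleton _, by rwa [Ne, Submodule.span_singleton_eq_bot]⟩

theorem Lat.of_le [IsNoetherianRing R] {A B : Submodule R F} (hB : Lat B) (h : A ≤ B)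
    (hA : A ≠ ⊥) : Lat A := ⟨hB.fg.of_le h, hA⟩

theorem Lat.ne_bot_of_le {A B : Submodule R F} (hA : A ≠ ⊥) (h : A ≤ B) : B ≠ ⊥ := by
  intro hB
  rw [hB, le_bot_iff] at h
  exact hA h

theorem len_span_mul {a : F} (ha : a ≠ 0) (A B : Submodule R F) :
    len (Submodule.span R {a} * A) (Submodule.span R {a} * B) = len A B := by
  apply le_antisymm
  · refine len_le_of_inj (LinearMap.mulLeft R a⁻¹) ?_ ?_
    · intro b hb
      rw [Submodule.mem_span_singleton_mul] at hb
      obtain ⟨z, hz, rfl⟩ := hb
      rw [LinearMap.mulLeft_apply, inv_mul_cancel_left₀ ha]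
      exact hz
    · intro b hb hb'
      rw [LinearMap.mulLeft_apply] at hb'
      rw [Submodule.mem_span_singleton_mul]
      exact ⟨_, hb', by rw [mul_inv_cancel_left₀ ha]⟩
  · refine len_le_of_inj (LinearMap.mulLeft R a) ?_ ?_
    · intro b hb
      rw [LinearMap.mulLeft_apply, Submodule.mem_span_singleton_mul]
      exact ⟨b, hb, rfl⟩
    · intro b hb hb'
      rw [LinearMap.mulLeft_apply, Submodule.mem_span_singleton_mul] at hb'
      obtain ⟨z, hz, hzb⟩ := hb'
      rw [mul_right_inj' ha] at hzb
      rw [← hzb]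
      exact hz

theorem mul_div_self_le (A B : Submodule R F) : (A / B) * B ≤ A := by
  rw [← Submodule.le_div_iff_mul_le]

theorem div_antitone {A B C : Submodule R F} (h : A ≤ B) : C / B ≤ C / A := by
  rw [Submodule.le_div_iff_mul_le]
  exact (mulR _ h).trans (mul_div_self_le _ _)

theorem div_mono {A B C : Submodule R F} (h : A ≤ B) : A / C ≤ B / C := by
  rw [Submodule.le_div_iff_mul_le]
  exact (mul_div_self_le _ _).trans h

theorem div_div (A B C : Submodule R F) : A / B / C = A / (B * C) := by
  apply le_antisymm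
  · rw [Submodule.le_div_iff_mul_le, mul_comm B C, ← mul_assoc]
    exact (mulL _ (mul_div_self_le _ _)).trans (mul_div_self_le _ _)
  · rw [Submodule.le_div_iff_mul_le, Submodule.le_div_iff_mul_le, mul_assoc, mul_comm C B]
    exact mul_div_self_le _ _

theorem le_div_div (A B : Submodule R F) : B ≤ A / (A / B) := by
  rw [Submodule.le_div_iff_mul_le, mul_comm]
  exact mul_div_self_le _ _

variable [IsDomain R] [IsFractionRing R F]

theorem Lat.div [IsNoetherianRing R] {A B : Submodule R F} (hA : Lat A) (hB : Lat B) :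
    Lat (A / B) := by
  obtain ⟨b, hb, hb0⟩ := Submodule.exists_mem_ne_zero_of_ne_bot hB.ne
  obtain ⟨a, ha, ha0⟩ := Submodule.exists_mem_ne_zero_of_ne_bot hA.ne
  refine ⟨?_, ?_⟩
  · refine ((Submodule.fg_span_singleton (R := R) b⁻¹).mul hA.fg).of_le ?_
    intro x hx
    rw [Submodule.mem_div_iff_forall_mul_mem] at hx
    rw [Submodule.mem_span_singleton_mul]
    exact ⟨x * b, hx b hb, by rw [mul_comm x b, inv_mul_cancel_left₀ hb0]⟩
  · obtain ⟨d, hd, hdB⟩ := FractionalIdeal.isFractional_of_fg (S := R⁰) (P := F) hB.fg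
    have hd0 : algebraMap R F d ≠ 0 := by
      intro h
      rw [map_eq_zero_iff _ (IsFractionRing.injective R F)] at h
      exact (nonZeroDivisors.ne_zero hd) h
    intro h
    have : a * algebraMap R F d ∈ A / B := by
      rw [Submodule.mem_div_iff_forall_mul_mem]
      intro y hy
      obtain ⟨r, hr⟩ := hdB y hy
      rw [mul_assoc, ← Algebra.smul_def, ← hr, mul_comm, ← Algebra.smul_def]
      exact A.smul_mem r ha
    rw [h, Submodule.mem_bot] at this
    exact (mul_ne_zero ha0 hd0) this

variable (R F) in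
/-- The maximal ideal as a submodule of the fraction field. -/
def mF [IsLocalRing R] : Submodule R F := IsLocalization.coeSubmodule F (maximalIdeal R)

theorem coe_pow (I : Ideal R) (n : ℕ) :
    IsLocalization.coeSubmodule F (I ^ n) = IsLocalization.coeSubmodule F I ^ n := by
  induction n with
  | zero => rw [pow_zero, pow_zero, Ideal.one_eq_top, IsLocalization.coeSubmodule_top]
  | succ n ih => rw [pow_succ, pow_succ, IsLocalization.coeSubmodule_mul, ih]

theorem smul_eq_coe_mul (I : Ideal R) (N : Submodule R F) :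
    I • N = IsLocalization.coeSubmodule F I * N := by
  apply le_antisymm
  · rw [Submodule.smul_le]
    intro r hr n hn
    rw [Algebra.smul_def]
    exact Submodule.mul_mem_mul ((IsLocalization.mem_coeSubmodule F I).mpr ⟨r, hr, rfl⟩) hn
  · rw [Submodule.mul_le]
    intro x hx n hn
    obtain ⟨r, hr, rfl⟩ := (IsLocalization.mem_coeSubmodule F I).mp hx
    rw [← Algebra.smul_def]
    exact Submodule.smul_mem_smul hr hn

variable [IsLocalRing R]

theorem mF_le_one : mF R F ≤ 1 := by
  rw [← IsLocalization.coeSubmodule_top (R := R) (S := F)]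
  exact IsLocalization.coeSubmodule_mono F le_top

theorem mF_mul_le (N : Submodule R F) : mF R F * N ≤ N := by
  have := mulL N (mF_le_one (R := R) (F := F))
  rwa [one_mul] at this

theorem mF_pow_mul_anti (N : Submodule R F) {i j : ℕ} (h : i ≤ j) :
    mF R F ^ j * N ≤ mF R F ^ i * N := by
  obtain ⟨k, rfl⟩ := Nat.exists_eq_add_of_le h
  induction k with
  | zero => rfl
  | succ k ih =>
    refine le_trans ?_ (ih (by omega))
    rw [← add_assoc, pow_succ', mul_assoc]
    exact mF_mul_le _

theorem mF_pow_mul_le (N : Submodule R F) (j : ℕ) : mF R F ^ j * N ≤ N := by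
  have := mF_pow_mul_anti N (Nat.zero_le j)
  rwa [pow_zero, one_mul] at this

theorem coeSub_ne_bot {I : Ideal R} (hI : I ≠ ⊥) : IsLocalization.coeSubmodule F I ≠ ⊥ := by
  obtain ⟨a, ha, ha0⟩ := Submodule.exists_mem_ne_zero_of_ne_bot hI
  intro h
  have h1 : algebraMap R F a ∈ IsLocalization.coeSubmodule F I :=
    (IsLocalization.mem_coeSubmodule F I).mpr ⟨a, ha, rfl⟩
  rw [h, Submodule.mem_bot, map_eq_zero_iff _ (IsFractionRing.injective R F)] at h1
  exact ha0 h1

theorem Lat.coe [IsNoetherianRing R] {I : Ideal R} (hI : I ≠ ⊥) :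
    Lat (IsLocalization.coeSubmodule F I) := by
  refine ⟨?_, coeSub_ne_bot hI⟩
  exact (IsNoetherian.noetherian I).map _

end Basic

section DimOne

variable {R : Type*} [CommRing R] [IsDomain R] [IsLocalRing R] [IsNoetherianRing R]
  [Ring.KrullDimLE 1 R]
  {F : Type*} [Field F] [Algebra R F] [IsFractionRing R F]

omit [Ring.KrullDimLE 1 R] in
theorem Lat.mF (hm : maximalIdeal R ≠ ⊥) : Lat (mF R F) := Lat.coe hm

theorem exists_pow_le {D : Ideal R} (hD : D ≠ ⊥) : ∃ n, maximalIdeal R ^ n ≤ D := by
  have h1 : maximalIdeal R ≤ D.radical := by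
    rw [Ideal.radical_eq_sInf]
    refine le_sInf ?_
    rintro P ⟨hDP, hP⟩
    have : P.IsMaximal := hP.isMaximal_of_ne_bot (by
      intro h
      rw [h, le_bot_iff] at hDP
      exact hD hDP)
    rw [IsLocalRing.eq_maximalIdeal this]
  obtain ⟨n, hn⟩ := D.exists_radical_pow_le_of_fg (IsNoetherian.noetherian _)
  exact ⟨n, (Ideal.pow_right_mono h1 n).trans hn⟩

theorem exists_pow_mul_le {A B : Submodule R F} (hA : Lat A) (hB : Lat B) :
    ∃ n, mF R F ^ n * B ≤ A := by
  have hAB := hA.div hB
  let D : Ideal R := (A / B).comap (Algebra.linearMap R F)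
  have hD : D ≠ ⊥ := by
    obtain ⟨x, hx, hx0⟩ := Submodule.exists_mem_ne_zero_of_ne_bot hAB.ne
    obtain ⟨a, b, hb, rfl⟩ := IsFractionRing.div_surjective (A := R) x
    have hb0 : algebraMap R F b ≠ 0 := by
      intro h
      rw [h, div_zero] at hx0
      exact hx0 rfl
    have ha0 : a ≠ 0 := by
      rintro rfl
      rw [map_zero, zero_div] at hx0
      exact hx0 rfl
    intro h
    have : a ∈ D := by
      show algebraMap R F a ∈ A / B
      have h2 := (A / B).smul_mem b hx
      rwa [Algebra.smul_def, mul_div_cancel₀ _ hb0] at h2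
    rw [h, Submodule.mem_bot] at this
    exact ha0 this
  obtain ⟨n, hn⟩ := exists_pow_le hD
  refine ⟨n, ?_⟩
  rw [← Submodule.le_div_iff_mul_le]
  unfold TC.mF
  rw [← coe_pow]
  intro x hx
  obtain ⟨r, hr, rfl⟩ := (IsLocalization.mem_coeSubmodule F _).mp hx
  exact hn hr

/-- Number of generators of a module over a local ring. -/
noncomputable def mu (R : Type*) [CommRing R] [IsLocalRing R] (X : Type*) [AddCommGroup X]
    [Module R X] : ℕ := Module.finrank (ResidueField R) (ResidueField R ⊗[R] X)

omit [IsDomain R] [IsNoetherianRing R] [Ring.KrullDimLE 1 R] in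
theorem length_quot_eq_mu (X : Type*) [AddCommGroup X] [Module R X] [Module.Finite R X] :
    Module.length R (X ⧸ (maximalIdeal R • ⊤ : Submodule R X)) = (mu R X : ℕ∞) := by
  have e : ((ResidueField R) ⊗[R] X) ≃ₗ[R] X ⧸ (maximalIdeal R • ⊤ : Submodule R X) :=
    TensorProduct.quotTensorEquivQuotSMul X (maximalIdeal R)
  rw [← e.length_eq, Module.length_eq_of_surjective (R := ResidueField R)
    (by exact IsLocalRing.residue_surjective), Module.length_eq_finrank]
  rfl

omit [Ring.KrullDimLE 1 R] in
theorem len_mF (N : Submodule R F) (hN : N.FG) : len (mF R F * N) N = (mu R N : ℕ∞) := by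
  have : Module.Finite R N := Module.Finite.iff_fg.mpr hN
  rw [← length_quot_eq_mu]
  unfold len
  have e : (mF R F * N).submoduleOf N = (maximalIdeal R • ⊤ : Submodule R N) := by
    apply Submodule.map_injective_of_injective N.injective_subtype
    rw [Submodule.map_smul'', Submodule.map_subtype_top, smul_eq_coe_mul]
    unfold Submodule.submoduleOf
    rw [Submodule.map_comap_subtype]
    exact inf_eq_right.mpr (mF_mul_le N)
  rw [e]

omit [Ring.KrullDimLE 1 R] in
theorem len_pow_ne_top {N : Submodule R F} (hN : N.FG) (n : ℕ) :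
    len (mF R F ^ n * N) N ≠ ⊤ := by
  induction n with
  | zero => rw [pow_zero, one_mul, len_self]; exact ENat.zero_ne_top
  | succ n ih =>
    rw [len_add (B := mF R F ^ n * N) (mF_pow_mul_anti N (Nat.le_succ n)) (mF_pow_mul_le N n)]
    rw [pow_succ', mul_assoc, len_mF]
    · exact WithTop.add_ne_top.mpr ⟨ENat.natCast_ne_top _, ih⟩
    · exact hN.of_le (mF_pow_mul_le N n)

theorem len_ne_top {A B : Submodule R F} (hA : Lat A) (hB : Lat B) (h : A ≤ B) :
    len A B ≠ ⊤ := by
  obtain ⟨n, hn⟩ := exists_pow_mul_le hA hB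
  intro h1
  have := len_mono_left hn h
  rw [h1, top_le_iff] at this
  exact len_pow_ne_top hB.fg n this

end DimOne

end Pool.R336.TC
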