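import Mathlib

/-!
Lengths of quotients of submodules (`A ≤ B ≤ V`), and of modules of polynomials.
-/

namespace Pool.R336.TC

open Polynomial

section General

variable {R : Type*} [CommRing R] {V W : Type*} [AddCommGroup V] [Module R V]
  [AddCommGroup W] [Module R W]

/-- The length of `B / A` for submodules `A ≤ B` of `V`. -/
noncomputable def len (A B : Submodule R V) : ℕ∞ :=
  Module.length R (↥B ⧸ A.submoduleOf B)

theorem mem_sof {A B : Submodule R V} {x : B} : x ∈ A.submoduleOf B ↔ (x : V) ∈ A := Iff.rfl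

theorem len_le_of_inj (φ : V →ₗ[R] W) {A B : Submodule R V} {C E : Submodule R W}
    (hE : ∀ b ∈ B, φ b ∈ E) (hk : ∀ b ∈ B, φ b ∈ C → b ∈ A) : len A B ≤ len C E := by
  classical
  let ψ : B →ₗ[R] E := (φ.comp B.subtype).codRestrict E (fun b => hE b b.2)
  let χ : B →ₗ[R] (E ⧸ C.submoduleOf E) := (C.submoduleOf E).mkQ.comp ψ
  have hker : LinearMap.ker χ ≤ A.submoduleOf B := by
    intro x hx
    rw [LinearMap.mem_ker] at hx
    have : ψ x ∈ C.submoduleOf E := by
      rwa [← Submodule.Quotient.mk_eq_zero]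
    exact hk x x.2 this
  have h1 : Module.length R (B ⧸ LinearMap.ker χ) ≤ Module.length R (E ⧸ C.submoduleOf E) := by
    refine Module.length_le_of_injective ((LinearMap.ker χ).liftQ χ le_rfl) ?_
    rw [← LinearMap.ker_eq_bot]
    exact Submodule.ker_liftQ_eq_bot _ _ _ le_rfl
  have h2 : Module.length R (B ⧸ A.submoduleOf B) ≤ Module.length R (B ⧸ LinearMap.ker χ) :=
    Module.length_le_of_surjective (Submodule.factor hker) (Submodule.factor_surjective hker)
  exact h2.trans h1

theorem len_le_of_surj (φ : V →ₗ[R] W) {A B : Submodule R V} {C E : Submodule R W}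
    (hA : ∀ a ∈ A, φ a ∈ C) (hE : ∀ b ∈ B, φ b ∈ E)
    (hs : ∀ e ∈ E, ∃ b ∈ B, e - φ b ∈ C) : len C E ≤ len A B := by
  classical
  let ψ : B →ₗ[R] E := (φ.comp B.subtype).codRestrict E (fun b => hE b b.2)
  let χ : B →ₗ[R] (E ⧸ C.submoduleOf E) := (C.submoduleOf E).mkQ.comp ψ
  have hker : A.submoduleOf B ≤ LinearMap.ker χ := by
    intro x hx
    rw [LinearMap.mem_ker]
    show (C.submoduleOf E).mkQ (ψ x) = 0
    rw [Submodule.mkQ_apply, Submodule.Quotient.mk_eq_zero]
    exact hA x hx
  refine Module.length_le_of_surjective ((A.submoduleOf B).liftQ χ hker) ?_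
  intro y
  obtain ⟨e, rfl⟩ := Submodule.Quotient.mk_surjective _ y
  obtain ⟨b, hb, hbe⟩ := hs e e.2
  refine ⟨Submodule.Quotient.mk ⟨b, hb⟩, ?_⟩
  show (C.submoduleOf E).mkQ (ψ ⟨b, hb⟩) = _
  rw [Submodule.mkQ_apply, Submodule.Quotient.eq]
  show (φ b - (e : W)) ∈ C
  have := C.neg_mem hbe
  rwa [neg_sub] at this

theorem len_add {A B C : Submodule R V} (hAB : A ≤ B) (hBC : B ≤ C) :
    len A C = len A B + len B C := by
  classical
  have h1 : A.submoduleOf B ≤ (A.submoduleOf C).comap (Submodule.inclusion hBC) := by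
    intro x hx
    exact hx
  have h2 : A.submoduleOf C ≤ B.submoduleOf C := fun x hx => hAB hx
  refine Module.length_eq_add_of_exact
    (Submodule.mapQ _ _ (Submodule.inclusion hBC) h1) (Submodule.factor h2) ?_
    (Submodule.factor_surjective h2) ?_
  · rw [← LinearMap.ker_eq_bot, Submodule.eq_bot_iff]
    intro x hx
    obtain ⟨x, rfl⟩ := Submodule.Quotient.mk_surjective _ x
    rw [LinearMap.mem_ker, Submodule.mapQ_apply, Submodule.Quotient.mk_eq_zero] at hx
    rw [Submodule.Quotient.mk_eq_zero]
    exact hx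
  · intro y
    obtain ⟨y, rfl⟩ := Submodule.Quotient.mk_surjective _ y
    constructor
    · intro h
      rw [← Submodule.mkQ_apply, Submodule.factor_mk, Submodule.mkQ_apply,
        Submodule.Quotient.mk_eq_zero] at h
      refine ⟨Submodule.Quotient.mk ⟨y, h⟩, ?_⟩
      rw [Submodule.mapQ_apply]
      rfl
    · rintro ⟨z, hz⟩
      obtain ⟨z, rfl⟩ := Submodule.Quotient.mk_surjective _ z
      rw [Submodule.mapQ_apply, Submodule.Quotient.eq] at hz
      rw [← Submodule.mkQ_apply, Submodule.factor_mk, Submodule.mkQ_apply,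
        Submodule.Quotient.mk_eq_zero]
      have hz' : ((z : V) - (y : V)) ∈ A := hz
      have : (y : V) ∈ B := by
        have h3 := B.sub_mem z.2 (hAB hz')
        simpa using h3
      exact this

theorem len_self (A : Submodule R V) : len A A = 0 := by
  unfold len
  rw [Module.length_eq_zero_iff, Submodule.Quotient.subsingleton_iff]
  rw [eq_top_iff]
  intro x _
  exact x.2

theorem len_eq_zero_iff {A B : Submodule R V} : len A B = 0 ↔ B ≤ A := by
  unfold len
  rw [Module.length_eq_zero_iff, Submodule.Quotient.subsingleton_iff,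
    Submodule.submoduleOf_eq_top]

theorem len_mono_left {A A' B : Submodule R V} (h : A ≤ A') (h' : A' ≤ B) :
    len A' B ≤ len A B := by
  rw [len_add h h']
  exact le_add_self

theorem len_mono_right {A B B' : Submodule R V} (h : A ≤ B) (h' : B ≤ B') :
    len A B ≤ len A B' := by
  rw [len_add h h']
  exact le_self_add

end General

section Poly

variable {R : Type*} [CommRing R] {F : Type*} [CommRing F] [Algebra R F]

/-- Polynomials of degree less than `t` with coefficients in `N`. -/
def pol (N : Submodule R F) (t : ℕ) : Submodule R F[X] where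
  carrier := {g | (∀ i, g.coeff i ∈ N) ∧ ∀ i, t ≤ i → g.coeff i = 0}
  zero_mem' := ⟨fun i => by simp, fun i _ => by simp⟩
  add_mem' := by
    rintro a b ⟨ha, ha'⟩ ⟨hb, hb'⟩
    refine ⟨fun i => ?_, fun i hi => ?_⟩
    · rw [coeff_add]; exact N.add_mem (ha i) (hb i)
    · rw [coeff_add, ha' i hi, hb' i hi, add_zero]
  smul_mem' := by
    rintro c a ⟨ha, ha'⟩
    refine ⟨fun i => ?_, fun i hi => ?_⟩
    · rw [coeff_smul]; exact N.smul_mem c (ha i)
    · rw [coeff_smul, ha' i hi, smul_zero]

theorem mem_pol {N : Submodule R F} {t : ℕ} {g : F[X]} :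
    g ∈ pol N t ↔ (∀ i, g.coeff i ∈ N) ∧ ∀ i, t ≤ i → g.coeff i = 0 := Iff.rfl

theorem pol_mono {A B : Submodule R F} (h : A ≤ B) (t : ℕ) : pol A t ≤ pol B t :=
  fun _ hg => ⟨fun i => h (hg.1 i), hg.2⟩

theorem len_pol (A B : Submodule R F) (t : ℕ) :
    len (pol A t) (pol B t) = t * len A B := by
  classical
  let ψ : pol B t →ₗ[R] (Fin t → (B ⧸ A.submoduleOf B)) :=
    { toFun := fun g i => Submodule.Quotient.mk ⟨(g : F[X]).coeff i, g.2.1 i⟩
      map_add' := fun g h => by
        funext i
        rw [Pi.add_apply, ← Submodule.Quotient.mk_add]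
        congr 1
      map_smul' := fun c g => by
        funext i
        rw [Pi.smul_apply, RingHom.id_apply, ← Submodule.Quotient.mk_smul]
        congr 1 }
  have hker : LinearMap.ker ψ = (pol A t).submoduleOf (pol B t) := by
    ext g
    rw [LinearMap.mem_ker]
    constructor
    · intro h
      refine ⟨fun i => ?_, g.2.2⟩
      by_cases hi : i < t
      · have h1 := congrFun h ⟨i, hi⟩
        have h2 : (Submodule.Quotient.mk ⟨(g : F[X]).coeff i, g.2.1 i⟩ :
          B ⧸ A.submoduleOf B) = 0 := h1
        rw [Submodule.Quotient.mk_eq_zero] at h2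
        exact h2
      · have := g.2.2 i (not_lt.mp hi)
        show (g : F[X]).coeff i ∈ A
        rw [this]
        exact A.zero_mem
    · intro h
      funext i
      show (Submodule.Quotient.mk ⟨(g : F[X]).coeff i, g.2.1 i⟩ : B ⧸ A.submoduleOf B) = 0
      rw [Submodule.Quotient.mk_eq_zero]
      exact h.1 i
  have hsurj : Function.Surjective ψ := by
    intro y
    choose b hb using fun i => Submodule.Quotient.mk_surjective _ (y i)
    let g : F[X] := ∑ i : Fin t, monomial (i : ℕ) ((b i : B) : F)
    have hcoef : ∀ j : ℕ, g.coeff j = if h : j < t then ((b ⟨j, h⟩ : B) : F) else 0 := by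
      intro j
      simp only [g, finsetSum_coeff, coeff_monomial]
      split_ifs with h
      · rw [Finset.sum_eq_single ⟨j, h⟩]
        · simp
        · intro i _ hi
          rw [if_neg]
          intro h'
          exact hi (Fin.ext h')
        · intro h'
          exact absurd (Finset.mem_univ _) h'
      · apply Finset.sum_eq_zero
        intro i _
        rw [if_neg]
        intro h'
        exact h (h' ▸ i.2)
    have hg : g ∈ pol B t := by
      refine ⟨fun j => ?_, fun j hj => ?_⟩
      · rw [hcoef]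
        split_ifs
        · exact (b _).2
        · exact B.zero_mem
      · rw [hcoef, dif_neg (not_lt.mpr hj)]
    refine ⟨⟨g, hg⟩, ?_⟩
    funext i
    rw [← hb i]
    show (Submodule.Quotient.mk ⟨g.coeff i, _⟩ : B ⧸ A.submoduleOf B) = _
    congr 1
    apply Subtype.ext
    show g.coeff i = _
    rw [hcoef, dif_pos i.2]
  have e1 : (pol B t ⧸ (pol A t).submoduleOf (pol B t)) ≃ₗ[R]
      (Fin t → (B ⧸ A.submoduleOf B)) :=
    (Submodule.quotEquivOfEq _ _ hker.symm).trans (ψ.quotKerEquivOfSurjective hsurj)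
  unfold len
  rw [e1.length_eq, Module.length_pi]
  simp

end Poly

end Pool.R336.TC
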