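import Pool.Agent.R336.TC.RR

/-!
Steps 3, 4, 5: number of generators and multiplicity.
-/

set_option linter.unusedSectionVars false

namespace Pool.R336.TC

open Polynomial Submodule IsLocalRing
open scoped nonZeroDivisors TensorProduct

section
variable {R : Type*} [CommRing R] {V : Type*} [AddCommGroup V] [Module R V]

theorem len_sup_le {Y X₁ X₂ Y₁ Y₂ : Submodule R V} (h₁ : Y₁ ≤ Y) (h₂ : Y₂ ≤ Y)
    (h : Y ≤ X₁ ⊔ X₂) : len Y (X₁ ⊔ X₂) ≤ len Y₁ X₁ + len Y₂ X₂ := by
  rw [len_add (B := Y ⊔ X₁) le_sup_left (sup_le h le_sup_left)]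
  refine add_le_add ?_ ?_
  · refine len_le_of_surj LinearMap.id (fun a ha => h₁ ha)
      (fun b hb => (le_sup_right : X₁ ≤ Y ⊔ X₁) hb) ?_
    intro e he
    obtain ⟨y, hy, x, hx, rfl⟩ := Submodule.mem_sup.mp he
    exact ⟨x, hx, by simpa using hy⟩
  · refine len_le_of_surj LinearMap.id (fun a ha => (le_sup_left : Y ≤ Y ⊔ X₁) (h₂ ha))
      (fun b hb => (le_sup_right : X₂ ≤ X₁ ⊔ X₂) hb) ?_
    intro e he
    obtain ⟨y, hy, x, hx, rfl⟩ := Submodule.mem_sup.mp he
    refine ⟨x, hx, ?_⟩
    rw [LinearMap.id_apply, add_sub_cancel_right]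
    exact (le_sup_right : X₁ ≤ Y ⊔ X₁) hy

end

variable {R : Type*} [CommRing R] [IsDomain R] [IsLocalRing R] [IsNoetherianRing R]
  {F : Type*} [Field F] [Algebra R F] [IsFractionRing R F]

theorem monomial_mem_pol {N : Submodule R F} {t j : ℕ} (hj : j < t) {a : F} (ha : a ∈ N) :
    monomial j a ∈ pol N t := by
  refine ⟨fun i => ?_, fun i hi => ?_⟩
  · rw [coeff_monomial]
    split_ifs
    · exact ha
    · exact N.zero_mem
  · rw [coeff_monomial, if_neg (by omega)]

theorem pol_sup_le (A B : Submodule R F) (t : ℕ) : pol (A ⊔ B) t ≤ pol A t ⊔ pol B t := by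
  intro g hg
  have h1 : g = ∑ j ∈ Finset.range t, monomial j (g.coeff j) := by
    ext i
    rw [finsetSum_coeff]
    simp only [coeff_monomial]
    by_cases hi : i < t
    · rw [Finset.sum_ite_eq' (Finset.range t) i (fun j => g.coeff j),
        if_pos (Finset.mem_range.mpr hi)]
    · rw [hg.2 i (not_lt.mp hi), Finset.sum_ite_eq' (Finset.range t) i (fun j => g.coeff j),
        if_neg (by simpa using hi)]
  rw [h1]
  refine Submodule.sum_mem _ ?_
  intro j hj
  rw [Finset.mem_range] at hj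
  obtain ⟨a, ha, b, hb, hab⟩ := Submodule.mem_sup.mp (hg.1 j)
  rw [← hab, map_add]
  exact Submodule.add_mem_sup (monomial_mem_pol hj ha) (monomial_mem_pol hj hb)

/-- Arithmetic identity behind (3c). -/
theorem mu_add {N : Submodule R F} (hN : N.FG) (p : ℕ) :
    (mu R (mF R F ^ p * N : Submodule R F) : ℕ∞) + len (mF R F ^ p * N) N =
      len (mF R F ^ (p + 1) * N) (mF R F * N) + mu R N := by
  rw [← len_mF N hN, ← len_mF (mF R F ^ p * N) (hN.of_le (mF_pow_mul_le N p))]
  rw [← mul_assoc, ← pow_succ']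
  rw [← len_add (mF_pow_mul_anti N (Nat.le_succ p)) (mF_pow_mul_le N p)]
  rw [← len_add _ (mF_mul_le N)]
  have := mF_pow_mul_anti N (show 1 ≤ p + 1 by omega)
  rwa [pow_one] at this

theorem lat_pow_mul (hm : maximalIdeal R ≠ ⊥) {N : Submodule R F} (hN : Lat N) (p : ℕ) :
    Lat (mF R F ^ p * N) := ((Lat.mF hm).pow p).mul hN

variable [Ring.KrullDimLE 1 R]

/-- Inequality (3c) and its equality case. -/
theorem mu_le_pow (hm : maximalIdeal R ≠ ⊥) {N : Submodule R F} (hN : Lat N) {p₀ : ℕ}
    (h : RRn N p₀) {p : ℕ} (hp : p₀ ≤ p) :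
    mu R N ≤ mu R (mF R F ^ p * N : Submodule R F) := by
  obtain ⟨f, r, hf, hfr⟩ := exists_generic (R := R) (F := F)
  have h1 : len (mF R F ^ p * N) N ≠ ⊤ :=
    len_ne_top (lat_pow_mul hm hN p) hN (mF_pow_mul_le N p)
  have h2 : len (mF R F ^ (p + 1) * N) (mF R F * N) ≠ ⊤ := by
    refine len_ne_top (lat_pow_mul hm hN _) ((Lat.mF hm).mul hN) ?_
    have := mF_pow_mul_anti N (show 1 ≤ p + 1 by omega)
    rwa [pow_one] at this
  obtain ⟨a, ha⟩ := ENat.ne_top_iff_exists.mp h1
  obtain ⟨b, hb⟩ := ENat.ne_top_iff_exists.mp h2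
  have h3 : a ≤ b := by
    refine nat_count (r := r) 0 ?_
    intro t
    have := len_count h hp hf hfr t
    rw [← ha, ← hb] at this
    have h4 : t * a ≤ (t + r) * b := by exact_mod_cast this
    simpa using h4
  have h5 := mu_add hN.fg p
  rw [← ha, ← hb] at h5
  have h6 : mu R (mF R F ^ p * N : Submodule R F) + a = b + mu R N := by exact_mod_cast h5
  omega

/-- The partial lengths as natural numbers. -/
noncomputable def lenN {V : Type*} [AddCommGroup V] [Module R V] (A B : Submodule R V) : ℕ :=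
  (len A B).toNat

theorem lenN_eq {A B : Submodule R F} (hA : Lat A) (hB : Lat B) (h : A ≤ B) :
    (lenN A B : ℕ∞) = len A B := ENat.natCast_toNat (len_ne_top hA hB h)

theorem lenN_add {A B C : Submodule R F} (hA : Lat A) (hB : Lat B) (hC : Lat C)
    (h : A ≤ B) (h' : B ≤ C) : lenN A C = lenN A B + lenN B C := by
  have := len_add h h'
  rw [← lenN_eq hA hB h, ← lenN_eq hB hC h', ← lenN_eq hA hC (h.trans h')] at this
  exact_mod_cast this

theorem lenN_pow_succ (hm : maximalIdeal R ≠ ⊥) {N : Submodule R F} (hN : Lat N) (q : ℕ) :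
    lenN (mF R F ^ (q + 1) * N) N =
      lenN (mF R F ^ q * N) N + mu R (mF R F ^ q * N : Submodule R F) := by
  rw [lenN_add (lat_pow_mul hm hN _) (lat_pow_mul hm hN q) hN
    (mF_pow_mul_anti N (Nat.le_succ q)) (mF_pow_mul_le N q), add_comm]
  congr 1
  have : (lenN (mF R F ^ (q + 1) * N) (mF R F ^ q * N) : ℕ∞) = _ :=
    lenN_eq (lat_pow_mul hm hN _) (lat_pow_mul hm hN q) (mF_pow_mul_anti N (Nat.le_succ q))
  rw [pow_succ', mul_assoc, len_mF _ (lat_pow_mul hm hN q).fg] at this
  rw [pow_succ', mul_assoc]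
  exact_mod_cast this

/-- Numerical form of the multiplicity hypothesis. -/
def MultNum (R : Type*) [CommRing R] [IsDomain R] [IsLocalRing R] [IsNoetherianRing R]
    (F : Type*) [Field F] [Algebra R F] [IsFractionRing R F] (e : ℕ) : Prop :=
  ∃ n₀, ∀ n, n₀ ≤ n → 2 * lenN (mF R F ^ n) (1 : Submodule R F) ≤ (2 * e + 1) * n ∧
    2 * e * n ≤ 2 * lenN (mF R F ^ n) (1 : Submodule R F) + n

theorem step4 (hm : maximalIdeal R ≠ ⊥) {e : ℕ} (he : MultNum R F e)
    {N : Submodule R F} (hN : Lat N) {p₀ : ℕ} (h : RRn N p₀) :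
    (∀ q, p₀ ≤ q → mu R (mF R F ^ q * N : Submodule R F) ≤ e) ∧
    ∃ q₀, ∀ q, q₀ ≤ q → mu R (mF R F ^ q * N : Submodule R F) = e := by
  classical
  obtain ⟨n₀, hn₀⟩ := he
  -- normalise
  obtain ⟨α, hα, hα0⟩ := Submodule.exists_mem_ne_zero_of_ne_bot
    ((Lat.one (R := R) (F := F)).div hN).ne
  set N₁ := Submodule.span R {α} * N with hN₁
  have hN₁l : Lat N₁ := (Lat.span hα0).mul hN
  have hN₁1 : N₁ ≤ 1 := by
    intro x hx
    rw [hN₁, Submodule.mem_span_singleton_mul] at hx
    obtain ⟨z, hz, rfl⟩ := hx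
    exact (Submodule.mem_div_iff_forall_mul_mem.mp hα) z hz
  obtain ⟨c, hc⟩ := exists_pow_mul_le hN₁l (Lat.one (R := R) (F := F))
  rw [mul_one] at hc
  set S : ℕ → ℕ := fun P => lenN (mF R F ^ P * N) N with hS
  set C := lenN N₁ (1 : Submodule R F) with hC
  have hSN : ∀ P, S P = lenN (mF R F ^ P * N₁) N₁ := by
    intro P
    show (len _ _).toNat = (len _ _).toNat
    rw [hN₁, mul_left_comm, len_span_mul hα0]
  have hlatp : ∀ P, Lat (mF R F ^ P) := fun P => (Lat.mF hm).pow P
  have hSC : ∀ P, S P + C = lenN (mF R F ^ P * N₁) (1 : Submodule R F) := by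
    intro P
    rw [hSN, hC, ← lenN_add (lat_pow_mul hm hN₁l P) hN₁l Lat.one (mF_pow_mul_le _ _) hN₁1]
  have hlow : ∀ P, lenN (mF R F ^ P) (1 : Submodule R F) ≤ S P + C := by
    intro P
    rw [hSC]
    have h1 : mF R F ^ P * N₁ ≤ mF R F ^ P := by
      have := mulR (mF R F ^ P) hN₁1
      rwa [mul_one] at this
    have h2 : mF R F ^ P ≤ (1 : Submodule R F) := by
      have := mF_pow_mul_le (1 : Submodule R F) P
      rwa [mul_one] at this
    rw [lenN_add (lat_pow_mul hm hN₁l P) (hlatp P) Lat.one h1 h2]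
    exact Nat.le_add_left _ _
  have hupp : ∀ P, S P + C ≤ lenN (mF R F ^ (P + c)) (1 : Submodule R F) := by
    intro P
    rw [hSC]
    have h1 : mF R F ^ (P + c) ≤ mF R F ^ P * N₁ := by
      rw [pow_add]
      exact mulR _ hc
    have h2 : mF R F ^ P * N₁ ≤ (1 : Submodule R F) := (mF_pow_mul_le _ _).trans hN₁1
    rw [lenN_add (hlatp _) (lat_pow_mul hm hN₁l P) Lat.one h1 h2]
    exact Nat.le_add_left _ _
  set a : ℕ → ℕ := fun q => mu R (mF R F ^ q * N : Submodule R F) with ha
  have hSsucc : ∀ q, S (q + 1) = S q + a q := fun q => lenN_pow_succ hm hN q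
  have hmono : ∀ q, p₀ ≤ q → a q ≤ a (q + 1) := by
    intro q hq
    have h1 := mu_le_pow hm (lat_pow_mul hm hN q) (h.pow hq) (p := 1) (by omega)
    rwa [← mul_assoc, ← pow_add, add_comm 1 q] at h1
  have hmono' : ∀ q k, p₀ ≤ q → a q ≤ a (q + k) := by
    intro q k hq
    induction k with
    | zero => exact le_rfl
    | succ k ih => exact ih.trans (hmono (q + k) (by omega))
  have hA : ∀ q, p₀ ≤ q → a q ≤ e := by
    intro q hq
    by_contra hlt
    rw [not_le] at hlt
    have hS' : ∀ k, S q + (e + 1) * k ≤ S (q + k) := by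
      intro k
      induction k with
      | zero => simp
      | succ k ih =>
        rw [← add_assoc, hSsucc]
        have := hmono' q k hq
        nlinarith
    set k := (2 * e + 1) * (q + c) + 1 + n₀ with hk
    have h1 := hS' k
    have h2 := hupp (q + k)
    have h3 := (hn₀ (q + k + c) (by omega)).1
    have h4 : 2 * ((e + 1) * k) ≤ (2 * e + 1) * (q + k + c) := by omega
    have h5 : (2 * e + 1) * (q + k + c) = (2 * e + 1) * (q + c) + (2 * e + 1) * k := by ring
    have h6 : 2 * ((e + 1) * k) = (2 * e + 1) * k + k := by ring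
    omega
  refine ⟨hA, ?_⟩
  by_contra hcon
  have hB : ∀ q, p₀ ≤ q → a q + 1 ≤ e := by
    intro q hq
    by_contra hge
    apply hcon
    refine ⟨q, ?_⟩
    intro q' hq'
    obtain ⟨k, rfl⟩ := Nat.exists_eq_add_of_le hq'
    have h1 := hmono' q k hq
    have h2 := hA (q + k) (by omega)
    show a (q + k) = e
    omega
  have he1 : 1 ≤ e := by
    have := hB p₀ le_rfl
    omega
  have hS' : ∀ k, S (p₀ + k) + k ≤ S p₀ + e * k := by
    intro k
    induction k with
    | zero => simp
    | succ k ih =>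
      rw [← add_assoc p₀ k 1, hSsucc]
      have := hB (p₀ + k) (by omega)
      nlinarith
  set k := 2 * S p₀ + 2 * C + p₀ + 1 + n₀ with hk
  have h1 := hS' k
  have h2 := hlow (p₀ + k)
  have h3 := (hn₀ (p₀ + k) (by omega)).2
  have h4 : 2 * e * (p₀ + k) = 2 * e * p₀ + 2 * (e * k) := by ring
  omega

theorem mu_le (hm : maximalIdeal R ≠ ⊥) {e : ℕ} (he : MultNum R F e)
    {N : Submodule R F} (hN : Lat N) : mu R N ≤ e := by
  obtain ⟨p₀, hp₀⟩ := exists_RRn hm hN
  exact (mu_le_pow hm hN hp₀ le_rfl).trans ((step4 hm he hN hp₀).1 p₀ le_rfl)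

theorem step5 (hm : maximalIdeal R ≠ ⊥) {e : ℕ} (he : MultNum R F e)
    {N N' : Submodule R F} (hN : Lat N) (hN' : Lat N') (hmu : mu R N = e) :
    mu R (N * N' : Submodule R F) = e := by
  classical
  obtain ⟨f, r, hf, hfr⟩ := exists_generic (R := R) (F := F)
  obtain ⟨p₀, hp₀⟩ := exists_RRn hm hN
  obtain ⟨p₁, hp₁⟩ := exists_RRn hm (hN.mul hN')
  obtain ⟨-, q₀, hq₀⟩ := step4 hm he hN hp₀
  obtain ⟨-, q₁, hq₁⟩ := step4 hm he (hN.mul hN') hp₁
  set p := p₀ + q₀ + q₁ with hp
  have hpp₀ : p₀ ≤ p := by omega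
  have e1 := hq₀ p (by omega)
  have e2 := hq₁ p (by omega)
  have hfin : ∀ M : Submodule R F, Lat M → len (mF R F ^ p * M) M ≠ ⊤ := fun M hM =>
    len_ne_top (lat_pow_mul hm hM p) hM (mF_pow_mul_le M p)
  have hanti : ∀ M : Submodule R F, mF R F ^ (p + 1) * M ≤ mF R F * M := by
    intro M
    have := mF_pow_mul_anti M (show 1 ≤ p + 1 by omega)
    rwa [pow_one] at this
  have hfin' : ∀ M : Submodule R F, Lat M → len (mF R F ^ (p + 1) * M) (mF R F * M) ≠ ⊤ :=
    fun M hM => len_ne_top (lat_pow_mul hm hM _) ((Lat.mF hm).mul hM) (hanti M)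
  obtain ⟨a, ha⟩ := ENat.ne_top_iff_exists.mp (hfin N hN)
  obtain ⟨b, hb⟩ := ENat.ne_top_iff_exists.mp (hfin' N hN)
  obtain ⟨a', ha'⟩ := ENat.ne_top_iff_exists.mp (hfin (N * N') (hN.mul hN'))
  obtain ⟨b', hb'⟩ := ENat.ne_top_iff_exists.mp (hfin' (N * N') (hN.mul hN'))
  have hab : a = b := by
    have h5 := mu_add hN.fg p
    rw [← ha, ← hb, e1, hmu] at h5
    have h6 : e + a = b + e := by exact_mod_cast h5
    omega
  -- the key bound
  have hY : ∀ (M : Submodule R F) (t : ℕ),
      (pol (N * M) t).map (mulf R f) ⊔ pol (mF R F ^ (p + 1) * (N * M)) (t + r) ≤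
        pol (mF R F * (N * M)) (t + r) := by
    intro M t
    refine sup_le ?_ (pol_mono (hanti _) _)
    rw [Submodule.map_le_iff_le_comap]
    intro g hg
    exact mul_mem_pol hfr hg (by rw [hf])
  have key : ∀ M : Submodule R F, M.FG → ∃ c : ℕ, ∀ t : ℕ,
      len ((pol (N * M) t).map (mulf R f) ⊔ pol (mF R F ^ (p + 1) * (N * M)) (t + r))
        (pol (mF R F * (N * M)) (t + r)) ≤ c := by
    intro M hM
    refine Submodule.fg_induction (motive := fun M _ => ∃ c : ℕ, ∀ t : ℕ,
      len ((pol (N * M) t).map (mulf R f) ⊔ pol (mF R F ^ (p + 1) * (N * M)) (t + r))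
        (pol (mF R F * (N * M)) (t + r)) ≤ c) ?_ ?_ M hM
    · intro x
      refine ⟨r * a, ?_⟩
      intro t
      -- bound for N itself
      have hb1 : len ((pol N t).map (mulf R f) ⊔ pol (mF R F ^ (p + 1) * N) (t + r))
          (pol (mF R F * N) (t + r)) ≤ ((r * a : ℕ) : ℕ∞) := by
        have hYN : (pol N t).map (mulf R f) ⊔ pol (mF R F ^ (p + 1) * N) (t + r) ≤
            pol (mF R F * N) (t + r) := by
          have := hY 1 t
          rwa [mul_one] at this
        have h1 := len_add (A := pol (mF R F ^ (p + 1) * N) (t + r)) le_sup_right hYN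
        rw [len_pol, ← hb, ← hab] at h1
        have h2 : ((t * a : ℕ) : ℕ∞) ≤ len (pol (mF R F ^ (p + 1) * N) (t + r))
            ((pol N t).map (mulf R f) ⊔ pol (mF R F ^ (p + 1) * N) (t + r)) := by
          have h3 : ((t * a : ℕ) : ℕ∞) = len (pol (mF R F ^ p * N) t) (pol N t) := by
            rw [len_pol, ← ha]
            push_cast
            rfl
          rw [h3]
          refine len_le_of_inj (mulf R f) ?_ ?_
          · intro g hg
            exact (le_sup_left : _ ≤ (pol N t).map (mulf R f) ⊔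
              pol (mF R F ^ (p + 1) * N) (t + r)) (Submodule.mem_map_of_mem hg)
          · intro g hg hg'
            exact hp₀.poly hpp₀ hf hg.2 hg'
        have h4 : ((t * a : ℕ) : ℕ∞) +
            len ((pol N t).map (mulf R f) ⊔ pol (mF R F ^ (p + 1) * N) (t + r))
              (pol (mF R F * N) (t + r)) ≤ ((t * a : ℕ) : ℕ∞) + ((r * a : ℕ) : ℕ∞) := by
          refine (add_le_add_left h2 _).trans ?_
          rw [← h1]
          apply le_of_eq
          push_cast
          ring
        exact (ENat.add_le_add_iff_left (ENat.natCast_ne_top _)).mp h4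
      refine le_trans ?_ hb1
      have hx : ∀ {P Q : Submodule R F} {s : ℕ} {g : F[X]}, g ∈ pol P s →
          P * Submodule.span R {x} ≤ Q → C x * g ∈ pol Q s := by
        intro P Q s g hg hPQ
        refine ⟨fun i => ?_, fun i hi => ?_⟩
        · rw [coeff_C_mul, mul_comm]
          exact hPQ (Submodule.mul_mem_mul (hg.1 i) (Submodule.mem_span_singleton_self x))
        · rw [coeff_C_mul, hg.2 i hi, mul_zero]
      refine len_le_of_surj (mulf R (C x)) ?_ ?_ ?_
      · intro g hg
        obtain ⟨y, hy, z, hz, rfl⟩ := Submodule.mem_sup.mp hg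
        obtain ⟨y, hy', rfl⟩ := hy
        rw [map_add]
        refine Submodule.add_mem_sup ?_ ?_
        · refine ⟨C x * y, hx hy' le_rfl, ?_⟩
          show f * (C x * y) = C x * (f * y)
          ring
        · exact hx hz (by rw [mul_assoc])
      · intro g hg
        exact hx hg (by rw [mul_assoc])
      · intro g hg
        refine ⟨C x⁻¹ * g, ?_, ?_⟩
        · refine ⟨fun i => ?_, fun i hi => ?_⟩
          · rw [coeff_C_mul]
            have h1 := hg.1 i
            rw [← mul_assoc, mul_comm, Submodule.mem_span_singleton_mul] at h1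
            obtain ⟨z, hz, hzi⟩ := h1
            rw [← hzi]
            by_cases hx0 : x = 0
            · rw [hx0, zero_mul, mul_zero]
              exact Submodule.zero_mem _
            · rw [inv_mul_cancel_left₀ hx0]
              exact hz
          · rw [coeff_C_mul, hg.2 i hi, mul_zero]
        · have : g - (mulf R (C x)) (C x⁻¹ * g) = 0 := by
            by_cases hx0 : x = 0
            · have h1 : g = 0 := by
                ext i
                have h1 := hg.1 i
                rw [← mul_assoc, mul_comm, Submodule.mem_span_singleton_mul] at h1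
                obtain ⟨z, hz, hzi⟩ := h1
                rw [← hzi, hx0, zero_mul, coeff_zero]
              rw [h1]
              simp
            · show g - C x * (C x⁻¹ * g) = 0
              rw [← mul_assoc, ← C_mul, mul_inv_cancel₀ hx0, C_1, one_mul, sub_self]
          rw [this]
          exact Submodule.zero_mem _
    · rintro M₁ M₂ _ _ ⟨c₁, hc₁⟩ ⟨c₂, hc₂⟩
      refine ⟨c₁ + c₂, ?_⟩
      intro t
      have h1 : pol (mF R F * (N * (M₁ ⊔ M₂))) (t + r) =
          pol (mF R F * (N * M₁)) (t + r) ⊔ pol (mF R F * (N * M₂)) (t + r) := by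
        apply le_antisymm
        · refine le_trans ?_ (pol_sup_le _ _ _)
          rw [Submodule.mul_sup, Submodule.mul_sup]
        · refine sup_le (pol_mono ?_ _) (pol_mono ?_ _)
          · exact mulR _ (mulR _ le_sup_left)
          · exact mulR _ (mulR _ le_sup_right)
      have hYle := hY (M₁ ⊔ M₂) t
      rw [h1] at hYle ⊢
      refine (len_sup_le (Y₁ := (pol (N * M₁) t).map (mulf R f) ⊔
          pol (mF R F ^ (p + 1) * (N * M₁)) (t + r))
        (Y₂ := (pol (N * M₂) t).map (mulf R f) ⊔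
          pol (mF R F ^ (p + 1) * (N * M₂)) (t + r)) ?_ ?_ hYle).trans ?_
      · exact sup_le_sup (Submodule.map_mono (pol_mono (mulR _ le_sup_left) _))
          (pol_mono (mulR _ (mulR _ le_sup_left)) _)
      · exact sup_le_sup (Submodule.map_mono (pol_mono (mulR _ le_sup_right) _))
          (pol_mono (mulR _ (mulR _ le_sup_right)) _)
      · push_cast
        exact add_le_add (hc₁ t) (hc₂ t)
  obtain ⟨c, hc⟩ := key N' hN'.fg
  have hba : b' ≤ a' := by
    refine nat_count (r := 0) c ?_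
    intro t
    have h1 := len_add (A := pol (mF R F ^ (p + 1) * (N * N')) (t + r)) le_sup_right (hY N' t)
    have h2 : len (pol (mF R F ^ (p + 1) * (N * N')) (t + r))
        ((pol (N * N') t).map (mulf R f) ⊔ pol (mF R F ^ (p + 1) * (N * N')) (t + r)) ≤
        ((t * a' : ℕ) : ℕ∞) := by
      have h3 : ((t * a' : ℕ) : ℕ∞) = len (pol (mF R F ^ p * (N * N')) t) (pol (N * N') t) := by
        rw [len_pol, ← ha']
        push_cast
        rfl
      rw [h3]
      refine len_le_of_surj (mulf R f) ?_ ?_ ?_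
      · intro g hg
        refine mul_mem_pol hfr hg ?_
        rw [hf, ← mul_assoc, ← pow_succ']
      · intro g hg
        exact (le_sup_left : _ ≤ (pol (N * N') t).map (mulf R f) ⊔
          pol (mF R F ^ (p + 1) * (N * N')) (t + r)) (Submodule.mem_map_of_mem hg)
      · intro g hg
        obtain ⟨y, hy, z, hz, rfl⟩ := Submodule.mem_sup.mp hg
        obtain ⟨y, hy', rfl⟩ := hy
        refine ⟨y, hy', ?_⟩
        rw [add_sub_cancel_left]
        exact hz
    rw [len_pol, ← hb'] at h1
    have h4 : (((t + r) * b' : ℕ) : ℕ∞) ≤ ((t * a' + c : ℕ) : ℕ∞) := by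
      push_cast
      push_cast at h1
      rw [h1]
      refine add_le_add ?_ (hc t)
      exact_mod_cast h2
    have h5 : (t + r) * b' ≤ t * a' + c := by exact_mod_cast h4
    nlinarith
  have h5 := mu_add (hN.mul hN').fg p
  rw [← ha', ← hb', e2] at h5
  have h6 : e + a' = b' + mu R (N * N' : Submodule R F) := by exact_mod_cast h5
  have h7 := mu_le hm he (hN.mul hN')
  omega

end Pool.R336.TC
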