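import Pool.Agent.R336.TC.Lat

/-!
Step 1 (Ratliff-Rush) and the counting inequalities.
-/

set_option linter.unusedSectionVars false

namespace Pool.R336.TC

open Polynomial Submodule IsLocalRing
open scoped nonZeroDivisors TensorProduct

variable {R : Type*} [CommRing R] [IsDomain R] [IsLocalRing R] [IsNoetherianRing R]
  {F : Type*} [Field F] [Algebra R F] [IsFractionRing R F]

/-- `p₀` is a Ratliff-Rush number of `N`. -/
def RRn (N : Submodule R F) (p₀ : ℕ) : Prop :=
  ∀ p, p₀ ≤ p → ∀ (j : ℕ) (X : Submodule R F),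
    mF R F ^ j * X ≤ mF R F ^ (p + j) * N → X ≤ mF R F ^ p * N

theorem exists_RRn (hm : maximalIdeal R ≠ ⊥) {N : Submodule R F} (hN : Lat N) :
    ∃ p₀, RRn N p₀ := by
  classical
  obtain ⟨w, hw, hw0⟩ := Submodule.exists_mem_ne_zero_of_ne_bot hm
  set v : F := algebraMap R F w with hv
  have hv0 : v ≠ 0 := by
    intro h
    rw [hv, map_eq_zero_iff _ (IsFractionRing.injective R F)] at h
    exact hw0 h
  have hvm : v ∈ mF R F := (IsLocalization.mem_coeSubmodule F _).mpr ⟨w, hw, rfl⟩
  set M : Submodule R F := Submodule.span R {v⁻¹} * (mF R F * N) with hM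
  have hMfg : M.FG := (Submodule.fg_span_singleton _).mul ((Lat.mF hm).fg.mul hN.fg)
  have : Module.Finite R M := Module.Finite.iff_fg.mpr hMfg
  -- elements of `(m^(q+1) N) / m` lie in `m^q M`
  have hdiv : ∀ q, (mF R F ^ (q + 1) * N) / mF R F ≤ mF R F ^ q * M := by
    intro q x hx
    rw [Submodule.mem_div_iff_forall_mul_mem] at hx
    have h1 := hx v hvm
    have h2 : mF R F ^ q * M = Submodule.span R {v⁻¹} * (mF R F ^ (q + 1) * N) := by
      rw [hM, pow_succ]
      ring
    rw [h2, Submodule.mem_span_singleton_mul]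
    exact ⟨x * v, h1, by rw [mul_comm x v, inv_mul_cancel_left₀ hv0]⟩
  let Fl : (maximalIdeal R).Filtration M :=
    { N := fun q => ((mF R F ^ (q + 1) * N) / mF R F).submoduleOf M
      mono := by
        intro q
        apply Submodule.comap_mono
        exact div_mono (mF_pow_mul_anti N (Nat.le_succ _))
      smul_le := by
        intro q
        rw [Submodule.smul_le]
        intro r hr x hx
        show (r • (x : F)) ∈ (mF R F ^ (q + 1 + 1) * N) / mF R F
        have hx' : (x : F) ∈ (mF R F ^ (q + 1) * N) / mF R F := hx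
        rw [Submodule.mem_div_iff_forall_mul_mem] at hx' ⊢
        intro y hy
        rw [smul_mul_assoc, Algebra.smul_def, pow_succ', mul_assoc]
        exact Submodule.mul_mem_mul ((IsLocalization.mem_coeSubmodule F _).mpr ⟨r, hr, rfl⟩)
          (hx' y hy) }
  have hFl : Fl ≤ (maximalIdeal R).stableFiltration (⊤ : Submodule R M) := by
    intro q
    show ((mF R F ^ (q + 1) * N) / mF R F).submoduleOf M ≤ (maximalIdeal R) ^ q • ⊤
    intro x hx
    have h1 : (x : F) ∈ mF R F ^ q * M := hdiv q hx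
    have h2 : mF R F ^ q * M = ((maximalIdeal R) ^ q • (⊤ : Submodule R M)).map M.subtype := by
      rw [Submodule.map_smul'', Submodule.map_subtype_top, smul_eq_coe_mul, coe_pow]
      rfl
    rw [h2] at h1
    obtain ⟨y, hy, hyx⟩ := h1
    have : y = x := Subtype.ext hyx
    rwa [← this]
  obtain ⟨n₀, hn₀⟩ := (Ideal.stableFiltration_stable (maximalIdeal R) ⊤).of_le hFl
  have key : ∀ q, n₀ + 1 ≤ q → (mF R F ^ (q + 1) * N) / mF R F ≤ mF R F ^ q * N := by
    intro q hq
    obtain ⟨q, rfl⟩ : ∃ q', q = q' + 1 := ⟨q - 1, by omega⟩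
    intro x hx
    have hxM : x ∈ M := mF_pow_mul_le M _ (hdiv _ hx)
    have h1 : (⟨x, hxM⟩ : M) ∈ Fl.N (q + 1) := hx
    rw [← hn₀ q (by omega)] at h1
    have h2 : (maximalIdeal R • Fl.N q) ≤ (mF R F ^ (q + 1) * N).submoduleOf M := by
      rw [Submodule.smul_le]
      intro r hr y hy
      show (r • (y : F)) ∈ mF R F ^ (q + 1) * N
      have hy' : (y : F) ∈ (mF R F ^ (q + 1) * N) / mF R F := hy
      rw [Submodule.mem_div_iff_forall_mul_mem] at hy'
      have := hy' _ ((IsLocalization.mem_coeSubmodule F _).mpr ⟨r, hr, rfl⟩)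
      rw [Algebra.smul_def, mul_comm (algebraMap R F r) (y : F)]
      exact this
    exact h2 h1
  refine ⟨n₀ + 1, ?_⟩
  intro p hp j
  induction j with
  | zero =>
    intro X hX
    rw [pow_zero, one_mul, add_zero] at hX
    exact hX
  | succ j ih =>
    intro X hX
    apply ih X
    refine le_trans ?_ (key (p + j) (by omega))
    rw [Submodule.le_div_iff_mul_le, mul_comm, ← mul_assoc, ← pow_succ']
    exact hX

theorem RRn.pow {N : Submodule R F} {p₀ : ℕ} (h : RRn N p₀) {q : ℕ} (hq : p₀ ≤ q) :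
    RRn (mF R F ^ q * N) 0 := by
  intro p _ j X hX
  rw [← mul_assoc, ← pow_add] at hX ⊢
  apply h (p + q) (by omega) j X
  rw [show p + q + j = p + j + q by omega]
  exact hX

/-- (3b) -/
theorem RRn.poly {N : Submodule R F} {p₀ : ℕ} (h : RRn N p₀) {p : ℕ} (hp : p₀ ≤ p)
    {f : F[X]} (hf : cont R f = mF R F) {t s : ℕ} {g : F[X]}
    (hg : ∀ i, t ≤ i → g.coeff i = 0)
    (hfg : f * g ∈ pol (mF R F ^ (p + 1) * N) s) : g ∈ pol (mF R F ^ p * N) t := by
  refine ⟨?_, hg⟩
  rw [← cont_le (R := R)]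
  apply h p hp (t + 1)
  have h1 := dm (R := R) t g hg f
  rw [hf] at h1
  refine h1.trans ?_
  have h2 : cont R (f * g) ≤ mF R F ^ (p + 1) * N := cont_le.mpr hfg.1
  refine (mulR _ h2).trans ?_
  rw [← mul_assoc, ← pow_add, show t + (p + 1) = p + (t + 1) by omega]

/-- The polynomial whose coefficients are generators of the maximal ideal. -/
theorem exists_generic : ∃ (f : F[X]) (r : ℕ), cont R f = mF R F ∧ ∀ i, r ≤ i → f.coeff i = 0 := by
  classical
  obtain ⟨n, s, hs⟩ := Submodule.fg_iff_exists_fin_generating_family.mp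
    (IsNoetherian.noetherian (maximalIdeal R))
  let f : F[X] := ∑ i : Fin n, monomial (i : ℕ) (algebraMap R F (s i))
  have hcoef : ∀ j : ℕ, f.coeff j = if h : j < n then algebraMap R F (s ⟨j, h⟩) else 0 := by
    intro j
    simp only [f, finsetSum_coeff, coeff_monomial]
    split_ifs with h
    · rw [Finset.sum_eq_single ⟨j, h⟩]
      · simp
      · intro i _ hi
        rw [if_neg]
        intro h'
        exact hi (Fin.ext h')
      · intro h'
        exact absurd (Finset.mem_univ _) h'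
    · apply Finset.sum_eq_zero
      intro i _
      rw [if_neg]
      intro h'
      exact h (h' ▸ i.2)
  refine ⟨f, n, ?_, ?_⟩
  · apply le_antisymm
    · rw [cont_le]
      intro j
      rw [hcoef]
      split_ifs with h
      · refine (IsLocalization.mem_coeSubmodule F _).mpr ⟨s ⟨j, h⟩, ?_, rfl⟩
        rw [← hs]
        exact Submodule.subset_span ⟨_, rfl⟩
      · exact Submodule.zero_mem _
    · unfold mF
      rw [← hs]
      unfold IsLocalization.coeSubmodule
      rw [Submodule.map_span_le]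
      rintro _ ⟨i, rfl⟩
      have : f.coeff i = algebraMap R F (s i) := by
        rw [hcoef, dif_pos i.2]
      rw [Algebra.linearMap_apply, ← this]
      exact coeff_mem_cont _ _
  · intro i hi
    rw [hcoef, dif_neg (not_lt.mpr hi)]

/-- Multiplication by `f` sends `N_t` to `(mN)_{t+r}`. -/
theorem mul_mem_pol {f g : F[X]} {r t : ℕ} {N P : Submodule R F}
    (hfr : ∀ i, r ≤ i → f.coeff i = 0) (hg : g ∈ pol N t) (hP : cont R f * N ≤ P) :
    f * g ∈ pol P (t + r) := by
  refine ⟨?_, ?_⟩
  · intro i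
    rw [coeff_mul]
    refine Submodule.sum_mem _ fun p _ => hP ?_
    exact Submodule.mul_mem_mul (coeff_mem_cont f _) (hg.1 _)
  · intro i hi
    rw [coeff_mul]
    apply Finset.sum_eq_zero
    rintro ⟨a, b⟩ hab
    rw [Finset.HasAntidiagonal.mem_antidiagonal] at hab
    dsimp only at hab ⊢
    by_cases ha : r ≤ a
    · rw [hfr a ha, zero_mul]
    · rw [hg.2 b (by omega), mul_zero]

/-- Multiplication by `f` as an `R`-linear map of `F[X]`. -/
noncomputable def mulf (R : Type*) [CommRing R] {F : Type*} [Field F] [Algebra R F] (f : F[X]) :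
    F[X] →ₗ[R] F[X] := LinearMap.mulLeft R f

/-- The map `N_t / (m^p N)_t → (mN)_{t+r} / (m^{p+1}N)_{t+r}` is injective. -/
theorem len_count {N : Submodule R F} {p₀ : ℕ} (h : RRn N p₀) {p : ℕ} (hp : p₀ ≤ p)
    {f : F[X]} (hf : cont R f = mF R F) {r : ℕ} (hfr : ∀ i, r ≤ i → f.coeff i = 0) (t : ℕ) :
    (t : ℕ∞) * len (mF R F ^ p * N) N ≤
      ((t + r : ℕ) : ℕ∞) * len (mF R F ^ (p + 1) * N) (mF R F * N) := by
  rw [← len_pol, ← len_pol]
  refine len_le_of_inj (mulf R f) ?_ ?_
  · intro g hg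
    exact mul_mem_pol hfr hg (by rw [hf])
  · intro g hg hg'
    exact h.poly hp hf hg.2 hg'

theorem nat_count {a b r : ℕ} (c : ℕ) (h : ∀ t : ℕ, t * a ≤ (t + r) * b + c) : a ≤ b := by
  by_contra hab
  rw [not_le] at hab
  have h1 := h (r * b + c + 1)
  have h2 : (r * b + c + 1) * (b + 1) ≤ (r * b + c + 1) * a := Nat.mul_le_mul_left _ hab
  have h3 : (r * b + c + 1) * (b + 1) ≤ (r * b + c + 1 + r) * b + c := h2.trans h1
  have : (r * b + c + 1) * (b + 1) = (r * b + c + 1 + r) * b + c + 1 := by ring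
  omega

end Pool.R336.TC
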