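import Pool.Agent.R336.TC.Lat

/-!
A torsion-free module of type one over a one-dimensional local domain has rank one.
-/

set_option linter.unusedSectionVars false

namespace Pool.R336.TC

open Submodule IsLocalRing
open scoped nonZeroDivisors Pointwise

variable {R : Type*} [CommRing R] [IsDomain R] [IsLocalRing R] [IsNoetherianRing R]
  [Ring.KrullDimLE 1 R]

theorem mem_psmul {M : Type*} [AddCommGroup M] [Module R M] {x : R} {v : M} {N : Submodule R M} :
    v ∈ x • N ↔ ∃ w ∈ N, x • w = v := by
  rw [← SetLike.mem_coe, Submodule.coe_pointwise_smul, Set.mem_smul_set]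
  rfl

/-- The colon submodule `D : J`. -/
def annS {ω : Type*} [AddCommGroup ω] [Module R ω] (D : Submodule R ω) (J : Ideal R) :
    Submodule R ω where
  carrier := {w | ∀ j ∈ J, j • w ∈ D}
  zero_mem' := fun j _ => by rw [smul_zero]; exact D.zero_mem
  add_mem' := fun {v w} hv hw j hj => by rw [smul_add]; exact D.add_mem (hv j hj) (hw j hj)
  smul_mem' := fun c v hv j hj => by rw [smul_comm]; exact D.smul_mem c (hv j hj)

theorem annS_anti {ω : Type*} [AddCommGroup ω] [Module R ω] {D : Submodule R ω} {J J' : Ideal R}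
    (h : J' ≤ J) : annS D J ≤ annS D J' := fun _ hw j hj => hw j (h hj)

/-- the type one condition, in elementary terms -/
def TypeOne (R : Type*) [CommRing R] [IsLocalRing R] (ω : Type*) [AddCommGroup ω] [Module R ω] :
    Prop :=
  ∀ x ∈ maximalIdeal R, x ≠ 0 → ∀ t t' : ω,
    (∀ a ∈ maximalIdeal R, a • t ∈ x • (⊤ : Submodule R ω)) →
    (∀ a ∈ maximalIdeal R, a • t' ∈ x • (⊤ : Submodule R ω)) →
    t ∉ x • (⊤ : Submodule R ω) → ∃ r : R, t' - r • t ∈ x • (⊤ : Submodule R ω)

omit [IsDomain R] [IsNoetherianRing R] [Ring.KrullDimLE 1 R] in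
theorem len_max_top : len (maximalIdeal R : Submodule R R) ⊤ = 1 := by
  have h1 : Module.length R (R ⧸ maximalIdeal R) = len (maximalIdeal R) (⊤ : Submodule R R) := by
    unfold len
    refine LinearEquiv.length_eq (Submodule.Quotient.equiv _ _ (Submodule.topEquiv).symm ?_)
    ext x
    constructor
    · rintro ⟨y, hy, rfl⟩
      exact hy
    · intro hx
      exact ⟨x, hx, rfl⟩
  rw [← h1, Module.length_eq_one_iff, isSimpleModule_iff_isCoatom]
  exact (IsLocalRing.maximalIdeal.isMaximal R).out

theorem len_socle_le {ω : Type*} [AddCommGroup ω] [Module R ω]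
    (hT : TypeOne R ω) {x : R} (hx : x ∈ maximalIdeal R) (hx0 : x ≠ 0) :
    len (x • (⊤ : Submodule R ω)) (annS (x • (⊤ : Submodule R ω)) (maximalIdeal R)) ≤ 1 := by
  set D := x • (⊤ : Submodule R ω) with hD
  by_cases h : annS D (maximalIdeal R) ≤ D
  · rw [len_eq_zero_iff.mpr h]
    exact zero_le_one
  · obtain ⟨t, ht, htD⟩ := Set.not_subset.mp h
    rw [← len_max_top (R := R)]
    refine len_le_of_surj (LinearMap.toSpanSingleton R ω t) ?_ ?_ ?_
    · intro a ha
      exact ht a ha
    · intro b _
      exact (annS D (maximalIdeal R)).smul_mem b ht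
    · intro e he
      obtain ⟨r, hr⟩ := hT x hx hx0 t e ht he htD
      exact ⟨r, Submodule.mem_top, hr⟩

theorem len_annS_le {ω : Type*} [AddCommGroup ω] [Module R ω]
    (hT : TypeOne R ω) {x : R} (hx : x ∈ maximalIdeal R) (hx0 : x ≠ 0) (s : ℕ) :
    ∀ J' J : Ideal R, J' ≤ J → (∃ N, maximalIdeal R ^ N * J ≤ J') →
      len (J' : Submodule R R) J = (s : ℕ∞) →
      len (annS (x • (⊤ : Submodule R ω)) J) (annS (x • (⊤ : Submodule R ω)) J') ≤ (s : ℕ∞) := by
  classical
  set D := x • (⊤ : Submodule R ω) with hD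
  induction s using Nat.strong_induction_on with
  | _ s ih =>
    intro J' J hJ hN hlen
    by_cases hle : J ≤ J'
    · have : J' = J := le_antisymm hJ hle
      rw [this, len_self]
      exact zero_le
    · -- find a socle element
      obtain ⟨a, haJ, haJ', ham⟩ : ∃ a ∈ J, a ∉ J' ∧ ∀ b ∈ maximalIdeal R, b * a ∈ J' := by
        have hN0 := Nat.find_spec hN
        have hNm := fun {k} => Nat.find_min (m := k) hN
        set N := Nat.find hN with hNdef
        have hNpos : N ≠ 0 := by
          intro h0
          rw [h0, pow_zero, one_mul] at hN0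
          exact hle hN0
        have h1 : ¬ maximalIdeal R ^ (N - 1) * J ≤ J' := hNm (by omega)
        obtain ⟨a, ha, haJ'⟩ := Set.not_subset.mp h1
        have haJ : a ∈ J := (Ideal.mul_le_right : maximalIdeal R ^ (N - 1) * J ≤ J) ha
        refine ⟨a, haJ, haJ', ?_⟩
        intro b hb
        apply hN0
        have : maximalIdeal R ^ N * J = maximalIdeal R * (maximalIdeal R ^ (N - 1) * J) := by
          rw [← mul_assoc, ← pow_succ']
          congr 2
          omega
        rw [this]
        exact Ideal.mul_mem_mul hb ha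
      set J'' : Ideal R := J' ⊔ Ideal.span {a} with hJ''
      have h1 : J' ≤ J'' := le_sup_left
      have h2 : J'' ≤ J := sup_le hJ (by
        rw [Ideal.span_le]
        rintro _ rfl
        exact haJ)
      have haJ'' : a ∈ J'' := (le_sup_right : Ideal.span {a} ≤ J'')
        (Ideal.mem_span_singleton_self a)
      have h3 := len_add (A := (J' : Submodule R R)) h1 h2
      have h4 : len (J' : Submodule R R) J'' ≠ 0 := by
        rw [Ne, len_eq_zero_iff]
        intro h
        exact haJ' (h haJ'')
      have h5 : len (J' : Submodule R R) J'' ≠ ⊤ := by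
        intro h
        rw [h, top_add, hlen] at h3
        exact ENat.natCast_ne_top _ h3
      have h6 : len (J'' : Submodule R R) J ≠ ⊤ := by
        intro h
        rw [h, add_top, hlen] at h3
        exact ENat.natCast_ne_top _ h3
      obtain ⟨p, hp⟩ := ENat.ne_top_iff_exists.mp h5
      obtain ⟨q, hq⟩ := ENat.ne_top_iff_exists.mp h6
      rw [hlen, ← hp, ← hq] at h3
      have h7 : s = p + q := by exact_mod_cast h3
      have h8 : p ≠ 0 := by
        rintro rfl
        exact h4 (by rw [← hp]; rfl)
      have h9 := ih q (by omega) J'' J h2 ⟨hN.choose, hN.choose_spec.trans h1⟩ hq.symm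
      have h10 : len (annS D J'') (annS D J') ≤ 1 := by
        refine le_trans ?_ (len_socle_le hT hx hx0)
        refine len_le_of_inj (LinearMap.lsmul R ω a) ?_ ?_
        · intro w hw b hb
          show b • (a • w) ∈ D
          rw [smul_smul]
          exact hw _ (ham b hb)
        · intro w hw hw' j hj
          obtain ⟨j₁, hj₁, j₂, hj₂, rfl⟩ := Submodule.mem_sup.mp hj
          obtain ⟨c, rfl⟩ := Ideal.mem_span_singleton'.mp hj₂
          rw [add_smul]
          refine D.add_mem (hw _ hj₁) ?_
          rw [mul_smul]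
          exact D.smul_mem c hw'
      rw [len_add (annS_anti h2) (annS_anti h1)]
      refine (add_le_add h9 h10).trans ?_
      have : q + 1 ≤ s := by omega
      exact_mod_cast this

theorem len_span_ne_top {x : R} (hx0 : x ≠ 0) :
    len (Ideal.span {x} : Submodule R R) ⊤ ≠ ⊤ := by
  intro h
  have h1 : len (Ideal.span {x} : Submodule R R) ⊤ ≤
      len (IsLocalization.coeSubmodule (FractionRing R) (Ideal.span {x}))
        (1 : Submodule R (FractionRing R)) := by
    refine len_le_of_inj (Algebra.linearMap R (FractionRing R)) ?_ ?_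
    · intro b _
      exact Submodule.mem_one.mpr ⟨b, rfl⟩
    · intro b _ hb
      obtain ⟨c, hc, hcb⟩ := (IsLocalization.mem_coeSubmodule _ _).mp hb
      have : c = b := IsFractionRing.injective R (FractionRing R) hcb
      rwa [← this]
  rw [h, top_le_iff] at h1
  have hne : Ideal.span {x} ≠ ⊥ := by
    rwa [Ne, Ideal.span_singleton_eq_bot]
  refine len_ne_top (Lat.coe hne) Lat.one ?_ h1
  rw [← IsLocalization.coeSubmodule_top (R := R) (S := FractionRing R)]
  exact IsLocalization.coeSubmodule_mono _ le_top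

theorem len_span_pow {x : R} (hx0 : x ≠ 0) (n : ℕ) :
    len (Ideal.span {x ^ n} : Submodule R R) ⊤ = n * len (Ideal.span {x} : Submodule R R) ⊤ := by
  induction n with
  | zero =>
    rw [pow_zero, Ideal.span_singleton_one, len_self, Nat.cast_zero, zero_mul]
  | succ n ih =>
    have h1 : Ideal.span {x ^ (n + 1)} ≤ Ideal.span {x ^ n} := by
      rw [Ideal.span_singleton_le_span_singleton]
      exact pow_dvd_pow x (Nat.le_succ n)
    rw [len_add (B := (Ideal.span {x ^ n} : Submodule R R)) h1 le_top, ih]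
    have h2 : len (Ideal.span {x ^ (n + 1)} : Submodule R R) (Ideal.span {x ^ n}) =
        len (Ideal.span {x} : Submodule R R) ⊤ := by
      apply le_antisymm
      · refine len_le_of_surj (LinearMap.lsmul R R (x ^ n)) ?_ ?_ ?_
        · intro a ha
          obtain ⟨c, rfl⟩ := Ideal.mem_span_singleton'.mp ha
          rw [LinearMap.lsmul_apply, smul_eq_mul]
          exact Ideal.mem_span_singleton'.mpr ⟨c, by ring⟩
        · intro b _
          rw [LinearMap.lsmul_apply, smul_eq_mul]
          exact Ideal.mem_span_singleton'.mpr ⟨b, by ring⟩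
        · intro e he
          obtain ⟨c, rfl⟩ := Ideal.mem_span_singleton'.mp he
          refine ⟨c, Submodule.mem_top, ?_⟩
          rw [LinearMap.lsmul_apply, smul_eq_mul, mul_comm, sub_self]
          exact Submodule.zero_mem _
      · refine len_le_of_inj (LinearMap.lsmul R R (x ^ n)) ?_ ?_
        · intro b _
          rw [LinearMap.lsmul_apply, smul_eq_mul]
          exact Ideal.mem_span_singleton'.mpr ⟨b, by ring⟩
        · intro b _ hb
          rw [LinearMap.lsmul_apply, smul_eq_mul] at hb
          obtain ⟨c, hc⟩ := Ideal.mem_span_singleton'.mp hb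
          have h3 : x ^ n * (c * x) = x ^ n * b := by
            rw [← hc]; ring
          have h4 := mul_left_cancel₀ (pow_ne_zero n hx0) h3
          exact Ideal.mem_span_singleton'.mpr ⟨c, h4⟩
    rw [h2]
    push_cast
    ring

variable {ω : Type*} [AddCommGroup ω] [Module R ω] [Module.Finite R ω]

theorem len_quot_le (hT : TypeOne R ω) {x : R} (hx : x ∈ maximalIdeal R) (hx0 : x ≠ 0) :
    len (x • (⊤ : Submodule R ω)) ⊤ ≤ len (Ideal.span {x} : Submodule R R) ⊤ := by
  obtain ⟨s, hs⟩ := ENat.ne_top_iff_exists.mp (len_span_ne_top hx0)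
  have hne : Ideal.span {x} ≠ ⊥ := by
    rwa [Ne, Ideal.span_singleton_eq_bot]
  obtain ⟨N, hN⟩ := exists_pow_le hne
  have h1 := len_annS_le (ω := ω) hT hx hx0 s (Ideal.span {x}) ⊤ le_top
    ⟨N, by rw [Ideal.mul_top]; exact hN⟩ hs.symm
  rw [← hs]
  refine le_trans ?_ h1
  have h2 : annS (x • (⊤ : Submodule R ω)) (⊤ : Ideal R) = x • (⊤ : Submodule R ω) := by
    apply le_antisymm
    · intro w hw
      have := hw 1 Submodule.mem_top
      rwa [one_smul] at this
    · intro w hw j _
      exact Submodule.smul_mem _ j hw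
  have h3 : annS (x • (⊤ : Submodule R ω)) (Ideal.span {x}) = ⊤ := by
    rw [eq_top_iff]
    intro w _ j hj
    obtain ⟨c, rfl⟩ := Ideal.mem_span_singleton'.mp hj
    rw [mul_smul]
    exact Submodule.smul_mem _ c (mem_psmul.mpr ⟨w, Submodule.mem_top, rfl⟩)
  rw [h2, h3]

theorem two_dep (hm : maximalIdeal R ≠ ⊥) (hT : TypeOne R ω) (u v : ω) :
    ∃ a b : R, (a ≠ 0 ∨ b ≠ 0) ∧ a • u + b • v = 0 := by
  classical
  by_contra hcon
  push Not at hcon
  let φ : (R × R) →ₗ[R] ω :=
    (LinearMap.toSpanSingleton R ω u).coprod (LinearMap.toSpanSingleton R ω v)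
  have hφ : ∀ p : R × R, φ p = p.1 • u + p.2 • v := fun p => rfl
  have hφ0 : ∀ p : R × R, φ p = 0 → p = 0 := by
    intro p hp
    by_contra hne
    rw [hφ] at hp
    refine hcon p.1 p.2 ?_ hp
    by_contra h'
    push Not at h'
    exact hne (Prod.ext h'.1 h'.2)
  obtain ⟨x, hx, hx0⟩ := Submodule.exists_mem_ne_zero_of_ne_bot hm
  obtain ⟨k, hk⟩ := Ideal.exists_pow_inf_eq_pow_smul (Ideal.span {x}) (LinearMap.range φ)
  have hk' := hk (2 * k + 1) (by omega)
  rw [show 2 * k + 1 - k = k + 1 by omega] at hk'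
  set A : Submodule R R := Ideal.span {x ^ (k + 1)} with hA
  set ℓ := len (Ideal.span {x} : Submodule R R) ⊤ with hℓ
  have hxn : x ^ (2 * k + 1) ∈ maximalIdeal R :=
    Ideal.pow_mem_of_mem _ hx _ (by omega)
  have h1 : len (x ^ (2 * k + 1) • (⊤ : Submodule R ω)) ⊤ ≤ (2 * k + 1 : ℕ) * ℓ := by
    rw [hℓ, ← len_span_pow hx0]
    exact len_quot_le hT hxn (pow_ne_zero _ hx0)
  have h2 : len (A.prod A) (⊤ : Submodule R (R × R)) ≤
      len (x ^ (2 * k + 1) • (⊤ : Submodule R ω)) ⊤ := by
    refine len_le_of_inj φ (fun b _ => Submodule.mem_top) ?_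
    intro p _ hp
    have h3 : φ p ∈ (Ideal.span {x}) ^ (2 * k + 1) • (⊤ : Submodule R ω) ⊓ LinearMap.range φ := by
      refine ⟨?_, ⟨p, rfl⟩⟩
      rw [Ideal.span_singleton_pow, Submodule.ideal_span_singleton_smul]
      exact hp
    rw [hk', Ideal.span_singleton_pow, Submodule.ideal_span_singleton_smul] at h3
    obtain ⟨w, hw, hwp⟩ := mem_psmul.mp h3
    obtain ⟨q, rfl⟩ := hw.2
    have h4 : p - x ^ (k + 1) • q = 0 := by
      apply hφ0
      rw [map_sub, map_smul, hwp, sub_self]
    rw [sub_eq_zero] at h4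
    rw [h4]
    refine ⟨Ideal.mem_span_singleton'.mpr ⟨q.1, ?_⟩, Ideal.mem_span_singleton'.mpr ⟨q.2, ?_⟩⟩
    · rw [Prod.smul_fst, smul_eq_mul, mul_comm]
    · rw [Prod.smul_snd, smul_eq_mul, mul_comm]
  have h3 : len A ⊤ + len A ⊤ ≤ len (A.prod A) (⊤ : Submodule R (R × R)) := by
    have e1 : A.prod A ≤ A.prod ⊤ := Submodule.prod_mono le_rfl le_top
    rw [len_add (A := A.prod A) e1 le_top]
    refine add_le_add ?_ ?_
    · refine len_le_of_inj (LinearMap.inr R R R) ?_ ?_
      · intro b _
        exact ⟨A.zero_mem, Submodule.mem_top⟩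
      · intro b _ hb
        exact hb.2
    · refine len_le_of_inj (LinearMap.inl R R R) ?_ ?_
      · intro b _
        exact Submodule.mem_top
      · intro b _ hb
        exact hb.1
  rw [hA, len_span_pow hx0, ← hℓ] at h3
  have h4 := h3.trans (h2.trans h1)
  obtain ⟨l, hl⟩ := ENat.ne_top_iff_exists.mp (len_span_ne_top hx0)
  rw [← hℓ] at hl
  rw [← hl] at h4
  have h5 : (k + 1) * l + (k + 1) * l ≤ (2 * k + 1) * l := by exact_mod_cast h4
  have h6 : l ≠ 0 := by
    rintro rfl
    have h7 : ℓ = 0 := by rw [← hl]; rfl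
    rw [hℓ, len_eq_zero_iff, top_le_iff, Ideal.span_singleton_eq_top] at h7
    exact (IsLocalRing.mem_maximalIdeal x).mp hx h7
  have h8 : 0 < l := Nat.pos_of_ne_zero h6
  nlinarith

variable {F : Type*} [Field F] [Algebra R F] [IsFractionRing R F]

/-- A torsion-free module of rank one embeds in the fraction field. -/
theorem exists_embedding [Nontrivial ω] (hm : maximalIdeal R ≠ ⊥) (hT : TypeOne R ω)
    (htf : ∀ r : R, r ≠ 0 → ∀ v : ω, r • v = 0 → v = 0) :
    ∃ K : Submodule R F, Lat K ∧ Nonempty (ω ≃ₗ[R] K) := by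
  classical
  obtain ⟨u, hu⟩ := exists_ne (0 : ω)
  have hrel : ∀ v : ω, ∃ a b : R, a ≠ 0 ∧ a • v = b • u := by
    intro v
    obtain ⟨a, b, hab, h⟩ := two_dep hm hT u v
    have hb : b ≠ 0 := by
      rintro rfl
      rw [zero_smul, add_zero] at h
      rcases hab with h' | h'
      · exact hu (htf a h' u h)
      · exact h' rfl
    refine ⟨b, -a, hb, ?_⟩
    rw [neg_smul]
    exact eq_neg_of_add_eq_zero_right h
  choose a b ha hab using hrel
  have halg : ∀ {r : R}, r ≠ 0 → algebraMap R F r ≠ 0 := by
    intro r hr h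
    rw [map_eq_zero_iff _ (IsFractionRing.injective R F)] at h
    exact hr h
  have huniq : ∀ {v : ω} {c d : R}, c ≠ 0 → c • v = d • u →
      algebraMap R F (b v) / algebraMap R F (a v) = algebraMap R F d / algebraMap R F c := by
    intro v c d hc hcd
    have h1 : (c * b v - a v * d) • u = 0 := by
      rw [sub_smul, mul_smul, mul_smul, ← hab v, ← hcd, smul_comm, sub_self]
    have h2 : c * b v - a v * d = 0 := by
      by_contra h
      exact hu (htf _ h u h1)
    have h3 : algebraMap R F c * algebraMap R F (b v) = algebraMap R F (a v) * algebraMap R F d := by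
      rw [← map_mul, ← map_mul, sub_eq_zero.mp h2]
    rw [div_eq_div_iff (halg (ha v)) (halg hc)]
    rw [mul_comm, h3, mul_comm]
  let ρ : ω →ₗ[R] F :=
    { toFun := fun v => algebraMap R F (b v) / algebraMap R F (a v)
      map_add' := by
        intro v w
        have h1 : (a v * a w) • (v + w) = (a w * b v + a v * b w) • u := by
          rw [smul_add, add_smul, mul_smul, mul_smul, mul_smul, mul_smul, ← hab w, smul_comm (a v) (a w) v,
            hab v]
        rw [huniq (mul_ne_zero (ha v) (ha w)) h1, div_add_div _ _ (halg (ha v)) (halg (ha w))]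
        rw [map_add, map_mul, map_mul, map_mul]
        ring
      map_smul' := by
        intro r v
        have h1 : a v • (r • v) = (r * b v) • u := by
          rw [smul_comm, hab v, mul_smul]
        rw [huniq (ha v) h1, map_mul, Algebra.smul_def, RingHom.id_apply, mul_div_assoc] }
  have hρ : ∀ v, ρ v = algebraMap R F (b v) / algebraMap R F (a v) := fun v => rfl
  have hinj : Function.Injective ρ := by
    rw [injective_iff_map_eq_zero]
    intro v hv
    rw [hρ, div_eq_zero_iff] at hv
    rcases hv with h | h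
    · rw [map_eq_zero_iff _ (IsFractionRing.injective R F)] at h
      have h1 := hab v
      rw [h, zero_smul] at h1
      exact htf _ (ha v) v h1
    · exact absurd h (halg (ha v))
  refine ⟨LinearMap.range ρ, ⟨?_, ?_⟩, ⟨LinearEquiv.ofInjective ρ hinj⟩⟩
  · rw [LinearMap.range_eq_map]
    exact (Module.Finite.fg_top (R := R) (M := ω)).map ρ
  · intro h
    have h1 : ρ u ∈ LinearMap.range ρ := ⟨u, rfl⟩
    rw [h, Submodule.mem_bot] at h1
    exact hu (hinj (by rw [h1, map_zero]))

end Pool.R336.TC
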